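import Mathlib

set_option autoImplicit false

open Set TopologicalSpace

namespace Q172.HSDefs

/-- The hyperspace `C(X)` of all nonempty closed connected subsets of the compact metric space `X`,
with the Hausdorff metric. -/
abbrev Hyperspace (X : Type) [MetricSpace X] : Type :=
  {K : NonemptyCompacts X // IsConnected (K : Set X)}

/-- The quotient space `HS(p, X) = C(X) / C(p, X)`: all subcontinua that contain `p` are identified
to one point. -/
def HS (X : Type) [MetricSpace X] (p : X) : Type :=
  Quot (fun A B : Hyperspace X => p ∈ (A.1 : Set X) ∧ p ∈ (B.1 : Set X))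

/-- The quotient map. -/
def HS.mk {X : Type} [MetricSpace X] (p : X) (A : Hyperspace X) : HS X p := Quot.mk _ A

/-- `HS(p, X)` carries the quotient topology. -/
instance (X : Type) [MetricSpace X] (p : X) : TopologicalSpace (HS X p) :=
  inferInstanceAs (TopologicalSpace (Quot _))

/-- `Y` is aposyndetic at `x` with respect to `y`: some subcontinuum (compact connected subset) of
`Y` contains `x` in its interior and does not contain `y`. -/
def AposyndeticAt (Y : Type) [TopologicalSpace Y] (x y : Y) : Prop :=
  ∃ M : Set Y, IsCompact M ∧ IsConnected M ∧ x ∈ interior M ∧ y ∉ M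

/-- `Y` is aposyndetic. -/
def Aposyndetic (Y : Type) [TopologicalSpace Y] : Prop :=
  ∀ x y : Y, x ≠ y → AposyndeticAt Y x y

/-- `Y` is semi-aposyndetic. -/
def SemiAposyndetic (Y : Type) [TopologicalSpace Y] : Prop :=
  ∀ x y : Y, x ≠ y → AposyndeticAt Y x y ∨ AposyndeticAt Y y x

end Q172.HSDefs
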