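import Mathlib
import Pool.Agent.WC.Smc
import Pool.Agent.Helper879.V.CTBasic

set_option autoImplicit false

open Set Topology TopologicalSpace Filter

namespace Q172.Hyper

open Pool.Agent.Helper879.V.CT

variable {X : Type} [MetricSpace X]

/-- The hyperspace of subcontinua. -/
abbrev CX (X : Type) [MetricSpace X] : Type := {K : NonemptyCompacts X // IsConnected (K : Set X)}

theorem isClosed_connected : IsClosed {K : NonemptyCompacts X | IsConnected (K : Set X)} := by
  rw [← isOpen_compl_iff, isOpen_iff_mem_nhds]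
  intro K hK
  have hK' : ¬ IsPreconnected (K : Set X) := fun h => hK ⟨K.nonempty, h⟩
  have hKc : IsClosed (K : Set X) := K.isCompact.isClosed
  rw [isPreconnected_iff_subset_of_fully_disjoint_closed hKc] at hK'
  push Not at hK'
  obtain ⟨u, v, hu, hv, huv, hd, h1, h2⟩ := hK'
  obtain ⟨U, V, hU, hV, hKU, hKV, hUV⟩ := SeparatedNhds.of_isCompact_isCompact
    (K.isCompact.inter_right hu) (K.isCompact.inter_right hv)
    (hd.mono inter_subset_right inter_subset_right)
  have ho : IsOpen ({L : NonemptyCompacts X | (L : Set X) ⊆ U ∪ V} ∩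
      ({L : NonemptyCompacts X | ((L : Set X) ∩ U).Nonempty} ∩
        {L : NonemptyCompacts X | ((L : Set X) ∩ V).Nonempty})) :=
    (NonemptyCompacts.isOpen_subsets_of_isOpen (hU.union hV)).inter
      ((NonemptyCompacts.isOpen_inter_nonempty_of_isOpen hU).inter
        (NonemptyCompacts.isOpen_inter_nonempty_of_isOpen hV))
  refine mem_of_superset (ho.mem_nhds ⟨?_, ?_, ?_⟩) ?_
  · intro x hx
    rcases huv hx with h | h
    · exact Or.inl (hKU ⟨hx, h⟩)
    · exact Or.inr (hKV ⟨hx, h⟩)
  · obtain ⟨x, hx, hxv⟩ := not_subset.1 h2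
    exact ⟨x, hx, hKU ⟨hx, (huv hx).resolve_right hxv⟩⟩
  · obtain ⟨x, hx, hxu⟩ := not_subset.1 h1
    exact ⟨x, hx, hKV ⟨hx, (huv hx).resolve_left hxu⟩⟩
  · rintro L ⟨hL1, hL2, hL3⟩ hLc
    obtain ⟨x, _, hxU, hxV⟩ := hLc.isPreconnected U V hU hV hL1 hL2 hL3
    exact disjoint_left.1 hUV hxU hxV

instance [CompactSpace X] : CompactSpace (CX X) :=
  isCompact_iff_compactSpace.1 (isClosed_connected (X := X)).isCompact

theorem hit_closed {F : Set X} (hF : IsClosed F) : IsClosed {K : CX X | ((K.1 : Set X) ∩ F).Nonempty} :=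
  (NonemptyCompacts.isClosed_inter_nonempty_of_isClosed hF).preimage continuous_subtype_val

theorem hit_open {U : Set X} (hU : IsOpen U) : IsOpen {K : CX X | ((K.1 : Set X) ∩ U).Nonempty} :=
  (NonemptyCompacts.isOpen_inter_nonempty_of_isOpen hU).preimage continuous_subtype_val

theorem sub_closed {F : Set X} (hF : IsClosed F) : IsClosed {K : CX X | (K.1 : Set X) ⊆ F} :=
  (NonemptyCompacts.isClosed_subsets_of_isClosed hF).preimage continuous_subtype_val

theorem sub_open {U : Set X} (hU : IsOpen U) : IsOpen {K : CX X | (K.1 : Set X) ⊆ U} :=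
  (NonemptyCompacts.isOpen_subsets_of_isOpen hU).preimage continuous_subtype_val

/-- Slightly larger subcontinua. -/
theorem exists_larger [CompactSpace X] [ConnectedSpace X] (K : CX X) (hK : (K.1 : Set X) ≠ univ)
    {ε : ℝ} (hε : 0 < ε) : ∃ L : CX X, (K.1 : Set X) ⊂ L.1 ∧ dist K L ≤ ε := by
  set S : Set X := (K.1 : Set X) with hS
  have hSne : S.Nonempty := K.1.nonempty
  have hSc : IsCompact S := K.1.isCompact
  obtain ⟨z, hz⟩ := hSne
  set O : Set X := {x | ε < Metric.infDist x S} with hO
  have hOo : IsOpen O := isOpen_lt continuous_const (Metric.continuous_infDist_pt S)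
  have hzO : z ∉ O := by
    intro h
    have h1 : ε < Metric.infDist z S := h
    rw [Metric.infDist_zero_of_mem hz] at h1
    linarith
  have hSO : S ⊆ univ \ O := by
    intro x hx
    refine ⟨trivial, fun h => ?_⟩
    have h1 : ε < Metric.infDist x S := h
    rw [Metric.infDist_zero_of_mem hx] at h1
    linarith
  have hcomp : IsCompact (univ \ O) := isCompact_univ.diff hOo
  have hL : Ctm (connectedComponentIn (univ \ O) z) := ctm_component hcomp ⟨trivial, hzO⟩
  have hSL : S ⊆ connectedComponentIn (univ \ O) z :=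
    K.2.isPreconnected.subset_connectedComponentIn hz hSO
  have hne : ∃ y ∈ connectedComponentIn (univ \ O) z, y ∉ S := by
    by_cases hOe : O.Nonempty
    · obtain ⟨y, hy, hyO⟩ := bump (Z := (univ : Set X)) (O := O) ⟨isCompact_univ, isConnected_univ⟩
        hOo (by rwa [univ_inter]) (mem_univ z) hzO
      refine ⟨y, hy, fun hyS => ?_⟩
      have h1 : closure O ⊆ {x | ε ≤ Metric.infDist x S} :=
        closure_minimal (fun x hx => le_of_lt (show ε < _ from hx))
          (isClosed_le continuous_const (Metric.continuous_infDist_pt S))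
      have h2 : ε ≤ Metric.infDist y S := h1 hyO
      rw [Metric.infDist_zero_of_mem hyS] at h2
      linarith
    · rw [not_nonempty_iff_eq_empty] at hOe
      have : connectedComponentIn (univ \ O) z = univ := by
        rw [hOe, sdiff_empty, connectedComponentIn_univ, PreconnectedSpace.connectedComponent_eq_univ]
      rw [this]
      by_contra hcon
      push Not at hcon
      exact hK (eq_univ_of_forall fun y => hcon y trivial)
  let L : CX X := ⟨⟨⟨connectedComponentIn (univ \ O) z, hL.1⟩, hL.2.nonempty⟩, hL.2⟩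
  refine ⟨L, ⟨hSL, ?_⟩, ?_⟩
  · obtain ⟨y, hy, hyS⟩ := hne
    exact fun h => hyS (h hy)
  · rw [Subtype.dist_eq, Metric.NonemptyCompacts.dist_eq]
    apply Metric.hausdorffDist_le_of_infDist hε.le
    · intro x hx
      have : x ∈ connectedComponentIn (univ \ O) z := hSL hx
      show Metric.infDist x (connectedComponentIn (univ \ O) z) ≤ ε
      rw [Metric.infDist_zero_of_mem this]
      exact hε.le
    · intro x hx
      have h1 : x ∈ univ \ O := connectedComponentIn_subset _ _ hx
      exact not_lt.1 h1.2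

/-- The whole space as a point of the hyperspace. -/
def top (X : Type) [MetricSpace X] [CompactSpace X] [ConnectedSpace X] : CX X :=
  ⟨⟨⟨univ, isCompact_univ⟩, univ_nonempty⟩, isConnected_univ⟩

theorem isPreconnected_above [CompactSpace X] [ConnectedSpace X] (D : CX X) :
    IsPreconnected {K : CX X | (D.1 : Set X) ⊆ K.1} := by
  obtain ⟨ω, hω, hmono⟩ := Pool.Agent.WC.exists_smc X
  set S : Set (CX X) := {K : CX X | (D.1 : Set X) ⊆ K.1} with hSdef
  have hScl : IsClosed S := by
    have : S = ⋂ x ∈ (D.1 : Set X), {K : CX X | ((K.1 : Set X) ∩ {x}).Nonempty} := by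
      ext K
      simp only [hSdef, mem_ofPred_eq, mem_iInter, inter_singleton_nonempty]
      rfl
    rw [this]
    exact isClosed_biInter fun x _ => hit_closed isClosed_singleton
  have htop : top X ∈ S := fun x _ => mem_univ x
  rw [isPreconnected_iff_subset_of_fully_disjoint_closed hScl]
  intro u v hu hv huv hd
  have main : ∀ u v : Set (CX X), IsClosed u → IsClosed v → S ⊆ u ∪ v → Disjoint u v →
      top X ∈ u → S ⊆ u := by
    intro u v hu hv huv hd htu K hK
    by_contra hKu
    have hKv : K ∈ v := (huv hK).resolve_left hKu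
    obtain ⟨K₀, ⟨hK₀S, hK₀v⟩, hmax⟩ := (hScl.inter hv).isCompact.exists_isMaxOn ⟨K, hK, hKv⟩
      (f := fun K : CX X => ω K.1) (hω.comp continuous_subtype_val).continuousOn
    have hne : (K₀.1 : Set X) ≠ univ := by
      intro h
      have : K₀ = top X := Subtype.ext (NonemptyCompacts.ext h)
      rw [this] at hK₀v
      exact disjoint_left.1 hd htu hK₀v
    have hlim : ∀ n : ℕ, ∃ L : CX X, L ∈ u ∧ dist L K₀ ≤ 1 / ((n : ℝ) + 1) := by
      intro n
      obtain ⟨L, hL1, hL2⟩ := exists_larger K₀ hne (show (0 : ℝ) < 1 / ((n : ℝ) + 1) by positivity)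
      have hLS : L ∈ S := fun x hx => hL1.1 (hK₀S hx)
      refine ⟨L, ?_, by rwa [dist_comm]⟩
      rcases huv hLS with h | h
      · exact h
      · exfalso
        have h1 : ω L.1 ≤ ω K₀.1 := hmax ⟨hLS, h⟩
        exact absurd (hmono _ _ hL1) (not_lt.2 h1)
    choose L hLu hL using hlim
    have ht : Tendsto L atTop (𝓝 K₀) := by
      rw [tendsto_iff_dist_tendsto_zero]
      exact squeeze_zero (fun n => dist_nonneg) hL tendsto_one_div_add_atTop_nhds_zero_nat
    have : K₀ ∈ u := hu.mem_of_tendsto ht (Eventually.of_forall hLu)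
    exact disjoint_left.1 hd this hK₀v
  rcases huv htop with h | h
  · exact Or.inl (main u v hu hv huv hd h)
  · exact Or.inr (main v u hv hu (by rwa [union_comm]) hd.symm h)

/-- The subcontinua that meet a nonempty set form a connected set. -/
theorem isConnected_hit [CompactSpace X] [ConnectedSpace X] {F : Set X} (hF : F.Nonempty) :
    IsConnected {K : CX X | ((K.1 : Set X) ∩ F).Nonempty} := by
  refine ⟨⟨top X, ?_⟩, ?_⟩
  · obtain ⟨x, hx⟩ := hF
    exact ⟨x, mem_univ x, hx⟩
  · apply isPreconnected_of_forall (top X)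
    intro K hK
    refine ⟨{L : CX X | (K.1 : Set X) ⊆ L.1}, ?_, fun x _ => mem_univ x, Subset.rfl,
      isPreconnected_above K⟩
    intro L hL
    exact hK.mono (inter_subset_inter_left _ hL)

attribute [local instance] TopologicalSpace.vietoris in
theorem union_connected {M : Set (CX X)} (hM : IsConnected M) :
    IsConnected (⋃ K ∈ M, (K.1 : Set X)) := by
  obtain ⟨K, hK⟩ := hM.nonempty
  obtain ⟨x, hx⟩ := K.1.nonempty
  refine ⟨⟨x, mem_biUnion hK hx⟩, ?_⟩
  exact vietoris.isPreconnected_biUnion hM.isPreconnected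
    (NonemptyCompacts.continuous_coe.comp continuous_subtype_val).continuousOn
    ⟨K, hK, K.2.isPreconnected⟩

theorem union_compact {M : Set (CX X)} (hM : IsCompact M) :
    IsCompact (⋃ K ∈ M, (K.1 : Set X)) := by
  have h := NonemptyCompacts.isCompact_biUnion_coe_of_isCompact
    (hM.image (continuous_subtype_val : Continuous (Subtype.val : CX X → NonemptyCompacts X)))
  rwa [biUnion_image] at h

end Q172.Hyper
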