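import Mathlib
import Pool.Agent.Q172.HSDefs
import Pool.Agent.Q172.Hyper

set_option autoImplicit false

open Set Topology TopologicalSpace Q172.HSDefs

namespace Q172.HSLemmas

variable {X : Type} [MetricSpace X] {p : X}

theorem mk_cont : Continuous (HS.mk p) := continuous_quot_mk

theorem mk_surj : Function.Surjective (HS.mk p) := Quot.mk_surjective

theorem isOpen_iff {U : Set (HS X p)} : IsOpen U ↔ IsOpen (HS.mk p ⁻¹' U) := by
  exact isQuotientMap_quot_mk.isOpen_preimage.symm

theorem mk_eq {A B : Hyperspace X} (h : HS.mk p A = HS.mk p B) :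
    A = B ∨ (p ∈ (A.1 : Set X) ∧ p ∈ (B.1 : Set X)) := by
  classical
  by_cases hB : p ∈ (B.1 : Set X)
  · by_cases hA : p ∈ (A.1 : Set X)
    · exact Or.inr ⟨hA, hB⟩
    · left
      let f : HS X p → Prop := Quot.lift (fun K => K = A) (by
        intro K L hKL
        have h1 : K ≠ A := fun h => hA (h ▸ hKL.1)
        have h2 : L ≠ A := fun h => hA (h ▸ hKL.2)
        simp [h1, h2])
      have h3 : f (HS.mk p A) = f (HS.mk p B) := congrArg f h
      have h4 : (A = A) = (B = A) := h3
      exact (h4.mp rfl).symm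
  · left
    let f : HS X p → Prop := Quot.lift (fun K => K = B) (by
      intro K L hKL
      have h1 : K ≠ B := fun h => hB (h ▸ hKL.1)
      have h2 : L ≠ B := fun h => hB (h ▸ hKL.2)
      simp [h1, h2])
    have h3 : f (HS.mk p A) = f (HS.mk p B) := congrArg f h
    have h4 : (A = B) = (B = B) := h3
    exact h4.mpr rfl

theorem mk_eq_of {A B : Hyperspace X} (hA : p ∈ (A.1 : Set X)) (hB : p ∈ (B.1 : Set X)) :
    HS.mk p A = HS.mk p B := Quot.sound ⟨hA, hB⟩

/-- Images of saturated open sets are open. -/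
theorem isOpen_image {V : Set (Hyperspace X)} (hV : IsOpen V)
    (hs : ∀ A ∈ V, ∀ B, HS.mk p A = HS.mk p B → B ∈ V) : IsOpen (HS.mk p '' V) := by
  rw [isOpen_iff]
  have : HS.mk p ⁻¹' (HS.mk p '' V) = V := by
    ext B
    constructor
    · rintro ⟨A, hA, h⟩
      exact hs A hA B h
    · intro hB
      exact ⟨B, hB, rfl⟩
  rwa [this]

theorem aposyndetic_of [CompactSpace X] [ConnectedSpace X] {A B : Hyperspace X} {c : X} {ε : ℝ}
    (hε : 0 < ε) (hBp : p ∉ (B.1 : Set X))
    (hB : (B.1 : Set X) ∩ Metric.closedBall c ε = ∅) {V : Set (Hyperspace X)} (hV : IsOpen V)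
    (hs : ∀ A ∈ V, ∀ B, HS.mk p A = HS.mk p B → B ∈ V) (hA : A ∈ V)
    (hsub : ∀ K ∈ V, ((K.1 : Set X) ∩ Metric.closedBall c ε).Nonempty) :
    AposyndeticAt (HS X p) (HS.mk p A) (HS.mk p B) := by
  refine ⟨HS.mk p '' {K : Hyperspace X | ((K.1 : Set X) ∩ Metric.closedBall c ε).Nonempty}, ?_, ?_, ?_, ?_⟩
  · exact (Q172.Hyper.hit_closed Metric.isClosed_closedBall).isCompact.image mk_cont
  · exact (Q172.Hyper.isConnected_hit ⟨c, Metric.mem_closedBall_self hε.le⟩).image _
      mk_cont.continuousOn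
  · exact interior_maximal (image_mono hsub) (isOpen_image hV hs) ⟨A, hA, rfl⟩
  · rintro ⟨K, hK, hKB⟩
    rcases mk_eq hKB with h | h
    · subst h
      have hK' : ((K.1 : Set X) ∩ Metric.closedBall c ε).Nonempty := hK
      rw [hB] at hK'
      exact not_nonempty_empty hK'
    · exact hBp h.2

theorem exists_ball {B : Hyperspace X} {c : X} (hc : c ∉ (B.1 : Set X)) :
    ∃ ε > 0, (B.1 : Set X) ∩ Metric.closedBall c ε = ∅ := by
  have hB : IsClosed (B.1 : Set X) := B.1.isCompact.isClosed
  obtain ⟨ε, hε, h⟩ := Metric.isOpen_iff.1 hB.isOpen_compl c hc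
  refine ⟨ε / 2, by linarith, ?_⟩
  rw [eq_empty_iff_forall_notMem]
  rintro x ⟨hx, hx2⟩
  exact h (Metric.closedBall_subset_ball (by linarith) hx2) hx

/-- aposyndesis at the special point -/
theorem apo_special [CompactSpace X] [ConnectedSpace X] {A B : Hyperspace X}
    (hA : p ∈ (A.1 : Set X)) (hB : p ∉ (B.1 : Set X)) :
    AposyndeticAt (HS X p) (HS.mk p A) (HS.mk p B) := by
  obtain ⟨ε, hε, h⟩ := exists_ball hB
  refine aposyndetic_of hε hB h (V := {K | ((K.1 : Set X) ∩ Metric.ball p ε).Nonempty})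
    (Q172.Hyper.hit_open Metric.isOpen_ball) ?_ ⟨p, hA, Metric.mem_ball_self hε⟩ ?_
  · intro K hK L hKL
    rcases mk_eq hKL with h1 | h1
    · rwa [← h1]
    · exact ⟨p, h1.2, Metric.mem_ball_self hε⟩
  · intro K hK
    exact hK.mono (inter_subset_inter_right _ Metric.ball_subset_closedBall)

/-- aposyndesis at an ordinary point with respect to an ordinary point not containing it -/
theorem apo_ordinary [CompactSpace X] [ConnectedSpace X] {A B : Hyperspace X}
    (hA : p ∉ (A.1 : Set X)) (hB : p ∉ (B.1 : Set X)) (hAB : ¬ (A.1 : Set X) ⊆ B.1) :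
    AposyndeticAt (HS X p) (HS.mk p A) (HS.mk p B) := by
  obtain ⟨c, hcA, hcB⟩ := not_subset.1 hAB
  obtain ⟨ε, hε, h⟩ := exists_ball hcB
  refine aposyndetic_of hε hB h (V := {K | ((K.1 : Set X) ∩ Metric.ball c ε).Nonempty} ∩
      {K | (K.1 : Set X) ⊆ {p}ᶜ})
    ((Q172.Hyper.hit_open Metric.isOpen_ball).inter (Q172.Hyper.sub_open isOpen_compl_singleton))
    ?_ ⟨⟨c, hcA, Metric.mem_ball_self hε⟩, fun x hx hxp => hA (by
      rw [mem_singleton_iff] at hxp; rwa [← hxp])⟩ ?_
  · rintro K ⟨hK1, hK2⟩ L hKL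
    rcases mk_eq hKL with h1 | h1
    · rw [← h1]; exact ⟨hK1, hK2⟩
    · exact absurd rfl (hK2 h1.1)
  · rintro K ⟨hK, -⟩
    exact hK.mono (inter_subset_inter_right _ Metric.ball_subset_closedBall)

/-- If `HS(p, X)` is aposyndetic at the point `{x}` with respect to the special point, then `X` is
aposyndetic at `x` with respect to `p`. -/
theorem apo_down [CompactSpace X] [ConnectedSpace X] {x : X} (hx : x ≠ p)
    {A B : Hyperspace X} (hA : (A.1 : Set X) = {x}) (hB : p ∈ (B.1 : Set X))
    (h : AposyndeticAt (HS X p) (HS.mk p A) (HS.mk p B)) : AposyndeticAt X x p := by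
  obtain ⟨M, hMc, hM, hAM, hBM⟩ := h
  let W : Set (Hyperspace X) := {K | (K.1 : Set X) ⊆ {p}ᶜ}
  have hWo : IsOpen W := Q172.Hyper.sub_open isOpen_compl_singleton
  have hW : ∀ K : Hyperspace X, K ∈ W ↔ p ∉ (K.1 : Set X) := by
    intro K
    constructor
    · intro h hp
      exact h hp rfl
    · intro h y hy hyp
      rw [mem_singleton_iff] at hyp
      exact h (hyp ▸ hy)
  let j : W → HS X p := fun K => HS.mk p K.1
  have hj : IsOpenEmbedding j := by
    refine IsOpenEmbedding.of_continuous_injective_isOpenMap (mk_cont.comp continuous_subtype_val)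
      ?_ ?_
    · rintro ⟨K, hK⟩ ⟨L, hL⟩ hKL
      rcases mk_eq hKL with h1 | h1
      · exact Subtype.ext h1
      · exact absurd h1.1 ((hW K).1 hK)
    · intro U hU
      have h1 : IsOpen (Subtype.val '' U) := hWo.isOpenMap_subtype_val U hU
      have h2 : j '' U = HS.mk p '' (Subtype.val '' U) := by
        rw [image_image]
      rw [h2]
      apply isOpen_image h1
      rintro _ ⟨K, hK, rfl⟩ L hKL
      rcases mk_eq hKL with h3 | h3
      · rw [← h3]; exact ⟨K, hK, rfl⟩
      · exact absurd h3.1 ((hW K.1).1 K.2)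
  have hMr : M ⊆ range j := by
    intro y hy
    obtain ⟨K, rfl⟩ := mk_surj y
    by_cases hK : p ∈ (K.1 : Set X)
    · exfalso
      rw [mk_eq_of hK hB] at hy
      exact hBM hy
    · exact ⟨⟨K, (hW K).2 hK⟩, rfl⟩
  have hjM : j '' (j ⁻¹' M) = M := image_preimage_eq_of_subset hMr
  have hNc : IsCompact (j ⁻¹' M) := by
    rw [hj.isInducing.isCompact_iff, hjM]; exact hMc
  have hN : IsConnected (j ⁻¹' M) := by
    refine ⟨?_, ?_⟩
    · obtain ⟨y, hy⟩ := hM.nonempty
      obtain ⟨K, hK⟩ := hMr hy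
      exact ⟨K, by rw [mem_preimage, hK]; exact hy⟩
    · rw [← hj.isInducing.isPreconnected_image, hjM]
      exact hM.isPreconnected
  set N : Set (Hyperspace X) := Subtype.val '' (j ⁻¹' M) with hNdef
  have hN1 : IsConnected N := hN.image _ continuous_subtype_val.continuousOn
  have hN2 : IsCompact N := hNc.image continuous_subtype_val
  refine ⟨⋃ K ∈ N, (K.1 : Set X), Q172.Hyper.union_compact hN2, Q172.Hyper.union_connected hN1, ?_, ?_⟩
  · -- the singletons near `x`
    let s : X → Hyperspace X := fun y => ⟨{y}, by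
      show IsConnected (({y} : NonemptyCompacts X) : Set X)
      rw [NonemptyCompacts.coe_singleton]
      exact isConnected_singleton⟩
    have hs : Continuous s := Continuous.subtype_mk NonemptyCompacts.continuous_singleton _
    have hsx : s x = A := by
      apply Subtype.ext
      apply NonemptyCompacts.ext
      show (({x} : NonemptyCompacts X) : Set X) = _
      rw [NonemptyCompacts.coe_singleton, hA]
    have hUo : IsOpen {y : X | y ≠ p ∧ HS.mk p (s y) ∈ interior M} :=
      isOpen_ne.inter (isOpen_interior.preimage (mk_cont.comp hs))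
    have hxU : x ∈ {y : X | y ≠ p ∧ HS.mk p (s y) ∈ interior M} := by
      refine ⟨hx, ?_⟩
      rw [hsx]
      exact hAM
    refine interior_maximal ?_ hUo hxU
    rintro y ⟨hyp, hy⟩
    have hsy : p ∉ ((s y).1 : Set X) := by
      show p ∉ (({y} : NonemptyCompacts X) : Set X)
      rw [NonemptyCompacts.coe_singleton, mem_singleton_iff]
      exact fun h => hyp h.symm
    refine mem_biUnion (x := s y) ⟨⟨s y, (hW _).2 hsy⟩,
      (interior_subset hy : HS.mk p (s y) ∈ M), rfl⟩ ?_
    show y ∈ (({y} : NonemptyCompacts X) : Set X)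
    rw [NonemptyCompacts.coe_singleton]
    exact mem_singleton y
  · simp only [mem_iUnion, exists_prop, not_exists, not_and]
    rintro K ⟨K', hK', rfl⟩
    exact (hW _).1 K'.2

end Q172.HSLemmas
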