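import Mathlib
import Pool.Agent.Helper448.VanKampen

/-! The complete graph `K₅` as a metric continuum, and the fact that it is not the image of a
compact subset of the plane under a continuous map with connected fibres. -/

set_option autoImplicit false

open Set Topology Metric

namespace Q172.KFive

/-- the point of the segment from the vertex `a` to the vertex `b` with parameter `t` -/
noncomputable def pt (a b : Fin 5) (t : ℝ) : Fin 5 → ℝ :=
  fun i => (1 - t) * (if i = a then 1 else 0) + t * (if i = b then 1 else 0)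

/-- the graph -/
def K : Set (Fin 5 → ℝ) := Set.range fun p : (Fin 5 × Fin 5) × unitInterval => pt p.1.1 p.1.2 p.2

/-- the parametrisation of the graph -/
noncomputable def par (p : (Fin 5 × Fin 5) × unitInterval) : K := ⟨pt p.1.1 p.1.2 p.2, p, rfl⟩

lemma continuous_pt (a b : Fin 5) : Continuous (pt a b) := by
  unfold pt
  fun_prop

lemma continuous_par : Continuous par := by
  refine Continuous.subtype_mk ?_ _
  refine continuous_iff_continuousAt.2 ?_
  rintro ⟨⟨a, b⟩, t⟩
  have h : ContinuousAt (fun q : (Fin 5 × Fin 5) × unitInterval => pt a b q.2) ((a, b), t) :=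
    ((continuous_pt a b).comp (continuous_subtype_val.comp continuous_snd)).continuousAt
  refine h.congr ?_
  have : {q : (Fin 5 × Fin 5) × unitInterval | q.1 = (a, b)} ∈ 𝓝 ((a, b), t) := by
    refine IsOpen.mem_nhds ?_ rfl
    exact (isOpen_discrete {(a, b)}).preimage continuous_fst
  filter_upwards [this] with q hq
  have hq' : q.1 = (a, b) := hq
  simp only [hq']

lemma par_surj : Function.Surjective par := by
  rintro ⟨_, p, rfl⟩
  exact ⟨p, rfl⟩

instance : LocallyConnectedSpace unitInterval := by
  have h : IsQuotientMap (Set.projIcc (0 : ℝ) 1 zero_le_one) :=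
    isQuotientMap_projIcc
  exact h.isCoinducing.locallyConnectedSpace

instance : CompactSpace K := by
  rw [← isCompact_univ_iff, ← par_surj.range_eq]
  exact isCompact_range continuous_par

instance : LocallyConnectedSpace K := by
  have h : IsQuotientMap par := continuous_par.isClosedMap.isQuotientMap continuous_par par_surj
  exact h.isCoinducing.locallyConnectedSpace

/-- the edge between two vertices -/
def seg (a b : Fin 5) : Set K := {y | ∃ t : unitInterval, par ((a, b), t) = y}

lemma seg_connected (a b : Fin 5) : IsConnected (seg a b) := by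
  have : seg a b = Set.range fun t : unitInterval => par ((a, b), t) := rfl
  rw [this]
  exact isConnected_range (continuous_par.comp (by fun_prop))

lemma seg_closed (a b : Fin 5) : IsClosed (seg a b) := by
  have : seg a b = Set.range fun t : unitInterval => par ((a, b), t) := rfl
  rw [this]
  exact (isCompact_range (continuous_par.comp (by fun_prop))).isClosed

/-- the vertices -/
noncomputable def vx (a : Fin 5) : K := par ((a, a), 0)

lemma par_zero (a b : Fin 5) : par ((a, b), 0) = vx a := by
  apply Subtype.ext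
  funext i
  simp [vx, par, pt]

lemma par_one (a b : Fin 5) : par ((a, b), 1) = vx b := by
  apply Subtype.ext
  funext i
  simp [vx, par, pt]

lemma vx_mem_left (a b : Fin 5) : vx a ∈ seg a b := ⟨0, par_zero a b⟩

lemma vx_mem_right (a b : Fin 5) : vx b ∈ seg a b := ⟨1, par_one a b⟩

instance : ConnectedSpace K := by
  have h : (Set.univ : Set K) = ⋃ p : Fin 5 × Fin 5, (seg p.1 p.2 ∪ seg p.1 0) := by
    symm
    rw [Set.eq_univ_iff_forall]
    intro y
    obtain ⟨⟨⟨a, b⟩, t⟩, rfl⟩ := par_surj y
    exact Set.mem_iUnion.2 ⟨(a, b), Or.inl ⟨t, rfl⟩⟩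
  refine { isPreconnected_univ := ?_, toNonempty := ⟨vx 0⟩ }
  rw [h]
  refine isPreconnected_iUnion ⟨vx 0, ?_⟩ ?_
  · rw [Set.mem_iInter]
    rintro ⟨a, b⟩
    exact Or.inr (vx_mem_right a 0)
  · rintro ⟨a, b⟩
    exact (seg_connected a b).isPreconnected.union (vx a) (vx_mem_left a b) (vx_mem_left a 0)
      (seg_connected a 0).isPreconnected

lemma seg_disjoint {a b c d : Fin 5} (hac : a ≠ c) (had : a ≠ d) (hbc : b ≠ c) (hbd : b ≠ d) :
    Disjoint (seg a b) (seg c d) := by
  rw [Set.disjoint_left]
  rintro y ⟨t, rfl⟩ ⟨s, hs⟩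
  have h1 := congrArg (fun z : K => z.1 c) hs
  have h2 := congrArg (fun z : K => z.1 d) hs
  have h3 := congrArg (fun z : K => z.1 a) hs
  simp only [par, pt] at h1 h2 h3
  rw [if_neg (Ne.symm hac), if_neg (Ne.symm hbc)] at h1
  rw [if_neg (Ne.symm had), if_neg (Ne.symm hbd)] at h2
  by_cases hcd : c = d
  · subst hcd
    simp at h1
  · simp only [hcd, Ne.symm hcd, if_true, if_false] at h1 h2
    linarith

lemma vx_injective : Function.Injective vx := by
  intro a b h
  by_contra hab
  have h1 := congrArg (fun z : K => z.1 a) h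
  simp [vx, par, pt, hab] at h1

instance : Nontrivial K := ⟨vx 0, vx 1, fun h => by simpa using vx_injective h⟩

/-- the open edge -/
def oe (a b : Fin 5) (s s' : ℝ) : Set K := {y | 0 < y.1 a ∧ s < y.1 b ∧ y.1 b < s'}

lemma oe_open (a b : Fin 5) (s s' : ℝ) : IsOpen (oe a b s s') := by
  have h1 : Continuous fun y : K => y.1 a := (continuous_apply a).comp continuous_subtype_val
  have h2 : Continuous fun y : K => y.1 b := (continuous_apply b).comp continuous_subtype_val
  exact (isOpen_lt continuous_const h1).inter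
    ((isOpen_lt continuous_const h2).inter (isOpen_lt h2 continuous_const))

/-- a point with two positive coordinates is on the edge -/
lemma mem_edge {a b : Fin 5} (hab : a ≠ b) {y : K} (ha : 0 < y.1 a) (hb : 0 < y.1 b) :
    y.1 b < 1 ∧ y.1 = pt a b (y.1 b) := by
  obtain ⟨⟨⟨c, d⟩, t⟩, rfl⟩ := par_surj y
  have ht0 := t.2.1
  have ht1 := t.2.2
  simp only [par, pt] at ha hb ⊢
  by_cases hac : a = c
  · subst hac
    by_cases hbd : b = d
    · subst hbd
      simp only [hab, Ne.symm hab, if_true, if_false] at ha hb ⊢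
      refine ⟨by linarith, ?_⟩
      funext i
      ring
    · simp [Ne.symm hab, hbd] at hb
  · by_cases had : a = d
    · subst had
      by_cases hbc : b = c
      · subst hbc
        simp only [hab, Ne.symm hab, if_true, if_false] at ha hb ⊢
        refine ⟨by linarith, ?_⟩
        funext i
        simp only [pt]
        ring
      · simp [hbc, Ne.symm hab] at hb
    · simp [hac, had] at ha

/-- nondegenerate subcontinua of the graph have interior points -/
lemma interior_nonempty {L : Set K} (hc : IsConnected L) (hn : L.Nontrivial) :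
    (interior L).Nonempty := by
  by_contra hemp
  rw [Set.not_nonempty_iff_eq_empty] at hemp
  have hinf : L.Infinite := hc.isPreconnected.infinite_of_nontrivial hn
  obtain ⟨z, hz, hzv⟩ : ∃ z ∈ L, z ∉ Set.range vx := by
    by_contra h
    push Not at h
    exact hinf ((Set.finite_range vx).subset h)
  obtain ⟨⟨⟨a, b⟩, t⟩, rfl⟩ := par_surj z
  have hab : a ≠ b := by
    rintro rfl
    refine hzv ⟨a, ?_⟩
    apply Subtype.ext
    funext i
    simp only [vx, par, pt, Set.Icc.coe_zero]
    ring
  have ht0 : 0 < (t : ℝ) := by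
    rcases t.2.1.lt_or_eq with h | h
    · exact h
    · exfalso
      refine hzv ⟨a, ?_⟩
      have : t = 0 := Subtype.ext h.symm
      rw [this, par_zero]
  have ht1 : (t : ℝ) < 1 := by
    rcases t.2.2.lt_or_eq with h | h
    · exact h
    · exfalso
      refine hzv ⟨b, ?_⟩
      have : t = 1 := Subtype.ext h
      rw [this, par_one]
  have hza : (par ((a, b), t)).1 a = 1 - t := by simp [par, pt, hab]
  have hzb : (par ((a, b), t)).1 b = t := by simp [par, pt, Ne.symm hab]
  -- points of the edge
  have hq : ∀ u : ℝ, 0 < u → u < 1 → ∃ q : K, q.1 = pt a b u :=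
    fun u h0 h1 => ⟨par ((a, b), ⟨u, h0.le, h1.le⟩), rfl⟩
  have hmiss : ∀ s s' : ℝ, 0 < s → s < s' → s' < 1 → ∃ q : K, q.1 = pt a b (q.1 b) ∧ q ∉ L ∧
      s < q.1 b ∧ q.1 b < s' := by
    intro s s' hs hss hs'
    by_contra h
    push Not at h
    have hsub : oe a b s s' ⊆ L := by
      rintro y ⟨h1, h2, h3⟩
      by_contra hy
      exact absurd h3 (not_lt.2 (h y (mem_edge hab h1 (hs.trans h2)).2 hy h2))
    have hint : oe a b s s' ⊆ interior L := interior_maximal hsub (oe_open a b s s')
    rw [hemp] at hint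
    obtain ⟨q, hq⟩ := hq ((s + s') / 2) (by linarith) (by linarith)
    refine hint (a := q) ⟨?_, ?_, ?_⟩
    · rw [hq]; simp only [pt, hab, if_true, if_false]; linarith
    · rw [hq]; simp only [pt, Ne.symm hab, if_true, if_false]; linarith
    · rw [hq]; simp only [pt, Ne.symm hab, if_true, if_false]; linarith
  have hall : ∀ ε : ℝ, 0 < ε → ∀ w ∈ L, 0 < w.1 a ∧ 0 < w.1 b ∧ |w.1 b - t| < ε := by
    intro ε hε w hw
    obtain ⟨q, hqe, hqL, hq1, hq2⟩ := hmiss (max (t / 2) (t - ε)) t
      (lt_max_of_lt_left (by linarith)) (max_lt (by linarith) (by linarith)) ht1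
    obtain ⟨q', hqe', hqL', hq1', hq2'⟩ := hmiss t (min ((t + 1) / 2) (t + ε))
      ht0 (lt_min (by linarith) (by linarith)) (min_lt_of_left_lt (by linarith))
    have hq0 : 0 < q.1 b := lt_of_le_of_lt (le_max_of_le_left (by linarith)) hq1
    have hq1b : q'.1 b < 1 := lt_of_lt_of_le hq2' (min_le_of_left_le (by linarith))
    have hU := oe_open a b (q.1 b) (q'.1 b)
    -- the closed arc
    let C : Set K := {y | y.1 = pt a b (y.1 b) ∧ q.1 b ≤ y.1 b ∧ y.1 b ≤ q'.1 b}
    have hCc : IsClosed C := by
      have h2 : Continuous fun y : K => y.1 b := (continuous_apply b).comp continuous_subtype_val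
      refine IsClosed.inter ?_ ((isClosed_le continuous_const h2).inter
        (isClosed_le h2 continuous_const))
      exact isClosed_eq continuous_subtype_val ((continuous_pt a b).comp h2)
    have hsub : L ⊆ oe a b (q.1 b) (q'.1 b) ∪ Cᶜ := by
      intro y hy
      by_cases hyC : y ∈ C
      · left
        obtain ⟨h1, h2, h3⟩ := hyC
        have e1 : y.1 b ≠ q.1 b := by
          intro e
          apply hqL
          have : y = q := Subtype.ext (by rw [h1, hqe, e])
          exact this ▸ hy
        have e2 : y.1 b ≠ q'.1 b := by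
          intro e
          apply hqL'
          have : y = q' := Subtype.ext (by rw [h1, hqe', e])
          exact this ▸ hy
        refine ⟨?_, lt_of_le_of_ne h2 (Ne.symm e1), lt_of_le_of_ne h3 e2⟩
        rw [h1]
        simp only [pt, hab, if_true, if_false]
        linarith
      · exact Or.inr hyC
    have hdisj : L ∩ (oe a b (q.1 b) (q'.1 b) ∩ Cᶜ) = ∅ := by
      rw [Set.eq_empty_iff_forall_notMem]
      rintro y ⟨-, ⟨h1, h2, h3⟩, hyC⟩
      exact hyC ⟨(mem_edge hab h1 (hq0.trans h2)).2, h2.le, h3.le⟩
    have hzo : par ((a, b), t) ∈ oe a b (q.1 b) (q'.1 b) := by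
      refine ⟨?_, ?_, ?_⟩
      · rw [hza]; linarith
      · rw [hzb]; exact hq2
      · rw [hzb]; exact hq1'
    rcases isPreconnected_iff_subset_of_disjoint.1 hc.isPreconnected _ _ hU hCc.isOpen_compl hsub
      hdisj with h | h
    · obtain ⟨h1, h2, h3⟩ := h hw
      refine ⟨h1, hq0.trans h2, ?_⟩
      rw [abs_lt]
      constructor
      · have := lt_of_le_of_lt (le_max_right (t / 2 : ℝ) (t - ε)) (hq1.trans h2)
        linarith
      · have := lt_of_lt_of_le (h3.trans hq2') (min_le_right ((t + 1) / 2 : ℝ) (t + ε))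
        linarith
    · exfalso
      refine h hz ⟨?_, ?_, ?_⟩
      · exact (mem_edge hab (by rw [hza]; linarith) (by rw [hzb]; exact ht0)).2
      · rw [hzb]; exact hq2.le
      · rw [hzb]; exact hq1'.le
  apply Set.not_subsingleton_iff.2 hn
  have key : ∀ w ∈ L, w = par ((a, b), t) := by
    intro w hw
    obtain ⟨h1, h2, -⟩ := hall 1 one_pos w hw
    have h3 : w.1 b = t := by
      by_contra hne
      have h4 := (hall |w.1 b - t| (abs_pos.2 (sub_ne_zero.2 hne)) w hw).2.2
      exact lt_irrefl _ h4
    apply Subtype.ext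
    rw [(mem_edge hab h1 h2).2, h3]
    rfl
  intro x hx y hy
  rw [key x hx, key y hy]

/-- The complete graph `K₅` is not the image of a compact subset of the plane under a continuous
map with connected fibres. -/
theorem no_monotone (S : Set (EuclideanSpace ℝ (Fin 2))) (f : S → K) (hS : IsCompact S)
    (hf : Continuous f) (hfib : ∀ y : K, IsConnected (Subtype.val '' (f ⁻¹' {y}))) : False := by
  haveI : CompactSpace S := isCompact_iff_compactSpace.1 hS
  have hfib' : ∀ y : K, IsConnected (f ⁻¹' {y}) := fun y =>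
    ⟨(hfib y).nonempty.of_image,
      IsInducing.subtypeVal.isPreconnected_image.1 (hfib y).isPreconnected⟩
  have hsurj : Function.Surjective f := fun y => (hfib' y).nonempty
  have hq : IsQuotientMap f := hf.isClosedMap.isQuotientMap hf hsurj
  -- the preimages of the edges, in the complex plane
  let e : EuclideanSpace ℝ (Fin 2) ≃ₗᵢ[ℝ] ℂ := Complex.orthonormalBasisOneI.repr.symm
  let P : Fin 5 → Fin 5 → Set ℂ := fun a b => (fun x : S => e x.1) '' (f ⁻¹' (seg a b))
  have hec : Continuous fun x : S => e x.1 := e.continuous.comp continuous_subtype_val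
  have hPc : ∀ a b, IsConnected (P a b) := fun a b =>
    (hq.isCoinducing.isConnected_preimage_of_isClosed hfib' (seg_closed a b)
      (seg_connected a b)).image _ hec.continuousOn
  have hPk : ∀ a b, IsCompact (P a b) := fun a b =>
    ((seg_closed a b).preimage hf).isCompact.image hec
  have hinj : Function.Injective fun x : S => e x.1 := fun x y h =>
    Subtype.ext (e.injective h)
  have hPd : ∀ a b c d, a ≠ c → a ≠ d → b ≠ c → b ≠ d → Disjoint (P a b) (P c d) := by
    intro a b c d h1 h2 h3 h4
    rw [Set.disjoint_image_iff hinj]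
    exact (seg_disjoint h1 h2 h3 h4).preimage f
  -- a common radius
  have hr : ∃ r : ℝ, 0 < r ∧ ∀ a b c d, a ≠ c → a ≠ d → b ≠ c → b ≠ d →
      Disjoint (thickening r (P a b)) (thickening r (P c d)) := by
    have h1 : ∀ q : (Fin 5 × Fin 5) × (Fin 5 × Fin 5), ∃ r : ℝ, 0 < r ∧
        (q.1.1 ≠ q.2.1 → q.1.1 ≠ q.2.2 → q.1.2 ≠ q.2.1 → q.1.2 ≠ q.2.2 →
        Disjoint (thickening r (P q.1.1 q.1.2)) (thickening r (P q.2.1 q.2.2))) := by
      rintro ⟨⟨a, b⟩, ⟨c, d⟩⟩
      by_cases h : a ≠ c ∧ a ≠ d ∧ b ≠ c ∧ b ≠ d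
      · obtain ⟨r, hr, hd⟩ := (hPd a b c d h.1 h.2.1 h.2.2.1 h.2.2.2).exists_thickenings
          (hPk a b) (hPk c d).isClosed
        exact ⟨r, hr, fun _ _ _ _ => hd⟩
      · refine ⟨1, one_pos, fun x1 x2 x3 x4 => absurd ⟨x1, x2, x3, x4⟩ h⟩
    choose r hr0 hr1 using h1
    obtain ⟨q, -, hq⟩ := Finset.exists_min_image Finset.univ r ⟨((0, 0), (0, 0)), Finset.mem_univ _⟩
    refine ⟨r q, hr0 q, fun a b c d h1 h2 h3 h4 => ?_⟩
    exact (hr1 ((a, b), (c, d)) h1 h2 h3 h4).mono
      (thickening_mono (hq _ (Finset.mem_univ _)) _) (thickening_mono (hq _ (Finset.mem_univ _)) _)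
  obtain ⟨r, hr0, hrd⟩ := hr
  -- points over the vertices
  have hp : ∀ a, ∃ x : S, f x = vx a := fun a => hsurj (vx a)
  choose p hp using hp
  refine Pool.Agent.Helper448.VanKampen.k5_joined (fun a => e (p a).1)
    (fun a b => thickening r (P a b)) ?_ ?_
  · intro a b _
    have hsub : P a b ⊆ thickening r (P a b) := self_subset_thickening hr0 _
    have hconn : IsConnected (thickening r (P a b)) := by
      refine ⟨(hPc a b).nonempty.mono hsub, ?_⟩
      have hU : thickening r (P a b) = ⋃ x : P a b, (ball (x : ℂ) r ∪ P a b) := by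
        ext y
        rw [mem_thickening_iff, Set.mem_iUnion]
        constructor
        · rintro ⟨z, hz, hyz⟩
          exact ⟨⟨z, hz⟩, Or.inl hyz⟩
        · rintro ⟨z, h | h⟩
          · exact ⟨z, z.2, h⟩
          · exact ⟨y, h, by simpa using hr0⟩
      rw [hU]
      obtain ⟨x0, hx0⟩ := (hPc a b).nonempty
      refine isPreconnected_iUnion ⟨x0, Set.mem_iInter.2 fun _ => Or.inr hx0⟩ ?_
      intro x
      exact (convex_ball (x : ℂ) r).isPreconnected.union x.1 (mem_ball_self hr0) x.2
        (hPc a b).isPreconnected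
    have hpc : IsPathConnected (thickening r (P a b)) :=
      isOpen_thickening.isConnected_iff_isPathConnected.1 hconn
    refine hpc.joinedIn _ (hsub ?_) _ (hsub ?_)
    · exact ⟨p a, by show f (p a) ∈ seg a b; rw [hp]; exact vx_mem_left a b, rfl⟩
    · exact ⟨p b, by show f (p b) ∈ seg a b; rw [hp]; exact vx_mem_right a b, rfl⟩
  · intro a b c d _ _ h1 h2 h3 h4
    exact hrd a b c d h1 h2 h3 h4

end Q172.KFive
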