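import Mathlib

set_option autoImplicit false

open Set Topology

namespace Q172.Unicoh

/-- A continuous integer valued function on a preconnected set is constant. -/
theorem int_const {Y : Type*} [TopologicalSpace Y] {S : Set Y} (hS : IsPreconnected S) {u : Y → ℝ}
    (hu : ContinuousOn u S) (hint : ∀ y ∈ S, ∃ n : ℤ, u y = n) {y z : Y} (hy : y ∈ S)
    (hz : z ∈ S) : u y = u z := by
  have key : ∀ y ∈ S, ∀ z ∈ S, ¬ u y < u z := by
    intro y hy z hz hlt
    obtain ⟨m, hm⟩ := hint y hy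
    obtain ⟨n, hn⟩ := hint z hz
    have hmn : m < n := by
      rw [hm, hn] at hlt
      exact_mod_cast hlt
    have hmn' : (m : ℝ) + 1 ≤ n := by exact_mod_cast hmn
    obtain ⟨w, hw, hw2⟩ := (hS.image u hu).ordConnected.out ⟨y, hy, rfl⟩ ⟨z, hz, rfl⟩
      (show (m : ℝ) + 1 / 2 ∈ Icc (u y) (u z) by
        constructor
        · rw [hm]; linarith
        · rw [hn]; linarith)
    obtain ⟨k, hk⟩ := hint w hw
    have hw2' : u w = m + 1 / 2 := hw2
    rw [hk] at hw2'
    have h1 : (m : ℝ) < k := by linarith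
    have h2 : (k : ℝ) < m + 1 := by linarith
    have h1' : m < k := by exact_mod_cast h1
    have h2' : k < m + 1 := by exact_mod_cast h2
    omega
  exact le_antisymm (not_lt.1 (key z hz y hy)) (not_lt.1 (key y hy z hz))

theorem coe_eq_iff {a b : ℝ} : ((a : ℝ) : UnitAddCircle) = b ↔ ∃ n : ℤ, a - b = n := by
  rw [← sub_eq_zero, ← AddCircle.coe_sub, AddCircle.coe_eq_zero_iff]
  constructor
  · rintro ⟨n, hn⟩
    exact ⟨n, by rw [← hn]; simp⟩
  · rintro ⟨n, hn⟩
    exact ⟨n, by rw [hn]; simp⟩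

/-- A normal space all of whose maps to the circle lift to the line is unicoherent. -/
theorem unicoherent {Y : Type*} [TopologicalSpace Y] [NormalSpace Y]
    (hlift : ∀ g : Y → UnitAddCircle, Continuous g →
      ∃ h : Y → ℝ, Continuous h ∧ ∀ y, ((h y : ℝ) : UnitAddCircle) = g y)
    {A B : Set Y} (hA : IsClosed A) (hB : IsClosed B) (hAc : IsPreconnected A)
    (hBc : IsPreconnected B) (hAB : A ∪ B = univ) : IsPreconnected (A ∩ B) := by
  classical
  rw [isPreconnected_iff_subset_of_fully_disjoint_closed (hA.inter hB)]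
  intro u v hu hv huv hd
  by_contra hcon
  push Not at hcon
  obtain ⟨hnu, hnv⟩ := hcon
  obtain ⟨q, hq, hqu⟩ := not_subset.1 hnu
  obtain ⟨p, hp, hpv⟩ := not_subset.1 hnv
  have hqv : q ∈ v := (huv hq).resolve_left hqu
  have hpu : p ∈ u := (huv hp).resolve_right hpv
  obtain ⟨φ, hφ0, hφ1, hφ⟩ := exists_continuous_zero_one_of_isClosed hu hv hd
  let g : Y → UnitAddCircle := A.piecewise (fun y => ((φ y / 2 : ℝ) : UnitAddCircle))
    (fun y => ((-(φ y / 2) : ℝ) : UnitAddCircle))
  have hagree : ∀ y ∈ A ∩ B, ((φ y / 2 : ℝ) : UnitAddCircle) = ((-(φ y / 2) : ℝ) : UnitAddCircle) := by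
    intro y hy
    rw [coe_eq_iff]
    rcases huv hy with h | h
    · refine ⟨0, ?_⟩
      have : φ y = 0 := hφ0 h
      rw [this]; simp
    · refine ⟨1, ?_⟩
      have : φ y = 1 := hφ1 h
      rw [this]; norm_num
  have hc1 : Continuous fun y => ((φ y / 2 : ℝ) : UnitAddCircle) :=
    (AddCircle.continuous_mk' 1).comp (φ.continuous.div_const 2)
  have hc2 : Continuous fun y => ((-(φ y / 2) : ℝ) : UnitAddCircle) :=
    (AddCircle.continuous_mk' 1).comp (φ.continuous.div_const 2).neg
  have hg : Continuous g := by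
    refine Continuous.piecewise ?_ hc1 hc2
    intro y hy
    apply hagree
    refine ⟨hA.frontier_subset hy, ?_⟩
    have h1 : y ∈ closure Aᶜ := by
      rw [frontier_eq_closure_inter_closure] at hy
      exact hy.2
    have h2 : Aᶜ ⊆ B := by
      intro z hz
      have : z ∈ A ∪ B := by rw [hAB]; trivial
      exact this.resolve_left hz
    exact (closure_minimal h2 hB) h1
  obtain ⟨h, hh, hlift⟩ := hlift g hg
  have hgA : ∀ y ∈ A, g y = ((φ y / 2 : ℝ) : UnitAddCircle) := fun y hy =>
    Set.piecewise_eq_of_mem _ _ _ hy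
  have hgB : ∀ y ∈ B, g y = ((-(φ y / 2) : ℝ) : UnitAddCircle) := by
    intro y hy
    by_cases hyA : y ∈ A
    · rw [hgA y hyA]
      exact hagree y ⟨hyA, hy⟩
    · exact Set.piecewise_eq_of_notMem _ _ _ hyA
  have e1 : h p - φ p / 2 = h q - φ q / 2 := by
    apply int_const hAc (u := fun y => h y - φ y / 2)
      (hh.sub (φ.continuous.div_const 2)).continuousOn _ hp.1 hq.1
    intro y hy
    rw [← coe_eq_iff, hlift, hgA y hy]
  have e2 : h p - -(φ p / 2) = h q - -(φ q / 2) := by
    apply int_const hBc (u := fun y => h y - -(φ y / 2))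
      (hh.sub (φ.continuous.div_const 2).neg).continuousOn _ hp.2 hq.2
    intro y hy
    rw [← coe_eq_iff, hlift, hgB y hy]
  have e3 : φ p = 0 := hφ0 hpu
  have e4 : φ q = 1 := hφ1 hqv
  rw [e3, e4] at e1 e2
  linarith

end Q172.Unicoh
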