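import Mathlib
import Pool.Agent.Q172.Unicoh

set_option autoImplicit false

open Set Topology

noncomputable section

namespace Q172.RP2Wedge

/-- Two two-spheres in five-space with two common points. -/
def X : Set (Fin 5 → ℝ) :=
  {v | v 0 * v 0 + v 1 * v 1 + v 2 * v 2 + v 3 * v 3 + v 4 * v 4 = 1 ∧
    ((v 3 = 0 ∧ v 4 = 0) ∨ (v 0 = 0 ∧ v 1 = 0))}

theorem X_closed : IsClosed X := by
  have h : ∀ i, Continuous fun v : Fin 5 → ℝ => v i := fun i => continuous_apply i
  refine IsClosed.inter (isClosed_eq ?_ continuous_const) (IsClosed.union ?_ ?_)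
  · exact (((((h 0).mul (h 0)).add ((h 1).mul (h 1))).add ((h 2).mul (h 2))).add
      ((h 3).mul (h 3))).add ((h 4).mul (h 4))
  · exact (isClosed_eq (h 3) continuous_const).inter (isClosed_eq (h 4) continuous_const)
  · exact (isClosed_eq (h 0) continuous_const).inter (isClosed_eq (h 1) continuous_const)

theorem X_compact : IsCompact X := by
  refine (isCompact_Icc (a := (-1 : Fin 5 → ℝ)) (b := 1)).of_isClosed_subset X_closed ?_
  intro v hv
  have h1 := hv.1
  have h : ∀ i, v i * v i ≤ 1 := by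
    intro i
    fin_cases i <;> simp only [Fin.zero_eta, Fin.mk_one, Fin.reduceFinMk] <;>
      nlinarith [mul_self_nonneg (v 0), mul_self_nonneg (v 1), mul_self_nonneg (v 2),
        mul_self_nonneg (v 3), mul_self_nonneg (v 4)]
  constructor
  · intro i
    show -1 ≤ v i
    nlinarith [h i, mul_self_nonneg (v i + 1)]
  · intro i
    show v i ≤ 1
    nlinarith [h i, mul_self_nonneg (v i - 1)]

instance : CompactSpace X := isCompact_iff_compactSpace.1 X_compact

/-- The sphere. -/
abbrev S2 : Type := Metric.sphere (0 : EuclideanSpace ℝ (Fin 3)) 1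

theorem S2_mem (a : S2) : a.1 0 * a.1 0 + a.1 1 * a.1 1 + a.1 2 * a.1 2 = 1 := by
  have h := a.2
  rw [mem_sphere_zero_iff_norm] at h
  have h2 : ‖a.1‖ ^ 2 = 1 := by rw [h]; norm_num
  rw [EuclideanSpace.norm_sq_eq] at h2
  simp only [Fin.sum_univ_three, Real.norm_eq_abs, sq_abs] at h2
  nlinarith [h2]

def i1 (a : S2) : X := ⟨![a.1 0, a.1 1, a.1 2, 0, 0], by
  refine ⟨?_, Or.inl ⟨rfl, rfl⟩⟩
  have := S2_mem a
  simpa using this⟩

def i2 (a : S2) : X := ⟨![0, 0, a.1 2, a.1 0, a.1 1], by
  refine ⟨?_, Or.inr ⟨rfl, rfl⟩⟩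
  have := S2_mem a
  simp
  linarith⟩

theorem coord_cont (i : Fin 3) : Continuous fun a : S2 => a.1 i :=
  (EuclideanSpace.proj (𝕜 := ℝ) i).continuous.comp continuous_subtype_val

theorem i1_cont : Continuous i1 := by
  refine Continuous.subtype_mk (continuous_pi fun i => ?_) _
  fin_cases i
  · exact coord_cont 0
  · exact coord_cont 1
  · exact coord_cont 2
  · exact continuous_const
  · exact continuous_const

theorem i2_cont : Continuous i2 := by
  refine Continuous.subtype_mk (continuous_pi fun i => ?_) _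
  fin_cases i
  · exact continuous_const
  · exact continuous_const
  · exact coord_cont 2
  · exact coord_cont 0
  · exact coord_cont 1

theorem mk_S2 (x y z : ℝ) (h : x * x + y * y + z * z = 1) :
    ∃ a : S2, a.1 0 = x ∧ a.1 1 = y ∧ a.1 2 = z := by
  refine ⟨⟨!₂[x, y, z], ?_⟩, rfl, rfl, rfl⟩
  rw [mem_sphere_zero_iff_norm, ← sq_eq_sq₀ (norm_nonneg _) zero_le_one,
    EuclideanSpace.norm_sq_eq]
  simp only [Fin.sum_univ_three, Real.norm_eq_abs, sq_abs]
  simp
  nlinarith [h]

def A : Set X := {v | v.1 3 = 0 ∧ v.1 4 = 0}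
def B : Set X := {v | v.1 0 = 0 ∧ v.1 1 = 0}

theorem range_i1 : range i1 = A := by
  ext v
  constructor
  · rintro ⟨a, rfl⟩
    exact ⟨rfl, rfl⟩
  · rintro ⟨h3, h4⟩
    have h := v.2.1
    rw [h3, h4] at h
    obtain ⟨a, a0, a1, a2⟩ := mk_S2 (v.1 0) (v.1 1) (v.1 2) (by linarith)
    refine ⟨a, ?_⟩
    apply Subtype.ext
    funext i
    fin_cases i
    · exact a0
    · exact a1
    · exact a2
    · exact h3.symm
    · exact h4.symm

theorem range_i2 : range i2 = B := by
  ext v
  constructor
  · rintro ⟨a, rfl⟩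
    exact ⟨rfl, rfl⟩
  · rintro ⟨h3, h4⟩
    have h := v.2.1
    rw [h3, h4] at h
    obtain ⟨a, a0, a1, a2⟩ := mk_S2 (v.1 3) (v.1 4) (v.1 2) (by linarith)
    refine ⟨a, ?_⟩
    apply Subtype.ext
    funext i
    fin_cases i
    · exact h3.symm
    · exact h4.symm
    · exact a2
    · exact a0
    · exact a1

theorem A_union_B : A ∪ B = univ := by
  apply eq_univ_of_forall
  intro v
  rcases v.2.2 with h | h
  · exact Or.inl h
  · exact Or.inr h

instance : Fact (Module.finrank ℝ (EuclideanSpace ℝ (Fin 3)) = 2 + 1) := ⟨by simp⟩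

instance : LocallyPathConnectedSpace S2 :=
  ChartedSpace.locallyPathConnectedSpace (EuclideanSpace ℝ (Fin 2)) S2

instance : ConnectedSpace S2 := by
  rw [← isConnected_iff_connectedSpace]
  apply isConnected_sphere _ _ zero_le_one
  rw [rank_eq_card_basis (EuclideanSpace.basisFun (Fin 3) ℝ).toBasis]
  simp

theorem A_connected : IsConnected A := by
  rw [← range_i1]
  exact isConnected_range i1_cont

theorem B_connected : IsConnected B := by
  rw [← range_i2]
  exact isConnected_range i2_cont

def north : X := ⟨![0, 0, 1, 0, 0], by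
  refine ⟨by simp, Or.inl ⟨rfl, rfl⟩⟩⟩

instance : ConnectedSpace X := by
  rw [connectedSpace_iff_univ, ← A_union_B]
  exact IsConnected.union ⟨north, ⟨rfl, rfl⟩, ⟨rfl, rfl⟩⟩ A_connected B_connected

instance : LocallyPathConnectedSpace X := by
  have hc : Continuous (Sum.elim i1 i2) := i1_cont.sumElim i2_cont
  have hs : Function.Surjective (Sum.elim i1 i2) := by
    intro v
    have hv : v ∈ A ∪ B := by rw [A_union_B]; trivial
    rcases hv with h | h
    · rw [← range_i1] at h
      obtain ⟨a, ha⟩ := h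
      exact ⟨Sum.inl a, ha⟩
    · rw [← range_i2] at h
      obtain ⟨a, ha⟩ := h
      exact ⟨Sum.inr a, ha⟩
  exact (hc.isClosedMap.isQuotientMap hc hs).locallyPathConnectedSpace

theorem A_closed : IsClosed A := by
  rw [← range_i1]
  exact (isCompact_range i1_cont).isClosed

theorem B_closed : IsClosed B := by
  rw [← range_i2]
  exact (isCompact_range i2_cont).isClosed

/-- the antipodal map -/
def neg (v : X) : X := ⟨-v.1, by
  obtain ⟨h1, h2⟩ := v.2
  refine ⟨by simpa using h1, ?_⟩
  rcases h2 with h | h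
  · exact Or.inl ⟨by simp [h.1], by simp [h.2]⟩
  · exact Or.inr ⟨by simp [h.1], by simp [h.2]⟩⟩

theorem neg_cont : Continuous neg :=
  Continuous.subtype_mk (continuous_subtype_val.neg) _

theorem neg_neg' (v : X) : neg (neg v) = v := Subtype.ext (neg_neg v.1)

theorem c2_cont : Continuous fun v : X => v.1 2 := (continuous_apply 2).comp continuous_subtype_val

theorem inter_not : ¬ IsConnected (A ∩ B) := by
  intro h
  have h1 := (h.isPreconnected.image (fun v : X => v.1 2) c2_cont.continuousOn).ordConnected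
  obtain ⟨v, ⟨hA, hB⟩, hv⟩ := h1.out ⟨neg north, ⟨⟨by simp [neg, north], by simp [neg, north]⟩,
    ⟨by simp [neg, north], by simp [neg, north]⟩⟩, rfl⟩
    ⟨north, ⟨⟨rfl, rfl⟩, ⟨rfl, rfl⟩⟩, rfl⟩ (show (0 : ℝ) ∈ _ by
      constructor <;> simp [neg, north])
  have h2 := v.2.1
  have hv' : v.1 2 = 0 := hv
  rw [hA.1, hA.2, hB.1, hB.2, hv'] at h2
  norm_num at h2

/-! ### The quotient -/

def p (v : X) : Fin 5 → Fin 5 → ℝ := fun i j => v.1 i * v.1 j

theorem p_cont : Continuous p := by
  refine continuous_pi fun i => continuous_pi fun j => ?_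
  exact ((continuous_apply i).comp continuous_subtype_val).mul
    ((continuous_apply j).comp continuous_subtype_val)

theorem exists_ne (v : X) : ∃ i, v.1 i ≠ 0 := by
  by_contra hcon
  push Not at hcon
  have := v.2.1
  rw [hcon 0, hcon 1, hcon 2, hcon 3, hcon 4] at this
  norm_num at this

theorem p_eq {v w : X} (h : p v = p w) : w = v ∨ w = neg v := by
  have hij : ∀ i j, v.1 i * v.1 j = w.1 i * w.1 j := fun i j => congrFun (congrFun h i) j
  obtain ⟨i, hi⟩ := exists_ne v
  rcases mul_self_eq_mul_self_iff.1 (hij i i) with h1 | h1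
  · left
    apply Subtype.ext
    funext j
    have := hij i j
    rw [← h1] at this
    exact (mul_left_cancel₀ hi this).symm
  · right
    apply Subtype.ext
    funext j
    have h2 := hij i j
    have h3 : w.1 i = -v.1 i := by rw [h1]; ring
    rw [h3] at h2
    show w.1 j = -v.1 j
    have h4 : v.1 i * v.1 j = v.1 i * (-w.1 j) := by rw [h2]; ring
    have h5 := mul_left_cancel₀ hi h4
    rw [h5]; ring

theorem p_neg (v : X) : p (neg v) = p v := by
  funext i j
  simp [p, neg]

/-- The one-point union of two projective planes. -/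
def Y : Set (Fin 5 → Fin 5 → ℝ) := range p

def f (v : X) : Y := ⟨p v, ⟨v, rfl⟩⟩

theorem f_cont : Continuous f := Continuous.subtype_mk p_cont _

theorem f_surj : Function.Surjective f := by
  rintro ⟨_, ⟨v, rfl⟩⟩
  exact ⟨v, rfl⟩

theorem f_neg (v : X) : f (neg v) = f v := Subtype.ext (p_neg v)

theorem f_eq {v w : X} (h : f v = f w) : w = v ∨ w = neg v := p_eq (congrArg Subtype.val h)

theorem f_quot : IsQuotientMap f := f_cont.isClosedMap.isQuotientMap f_cont f_surj

theorem f_open : IsOpenMap f := by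
  intro U hU
  rw [← f_quot.isOpen_preimage]
  have : f ⁻¹' (f '' U) = U ∪ neg ⁻¹' U := by
    ext v
    constructor
    · rintro ⟨w, hw, hwv⟩
      rcases f_eq hwv.symm with h | h
      · subst h; exact Or.inl hw
      · subst h; exact Or.inr hw
    · rintro (h | h)
      · exact ⟨v, h, rfl⟩
      · exact ⟨neg v, h, f_neg v⟩
  rw [this]
  exact hU.union (hU.preimage neg_cont)

theorem f_local : IsLocalHomeomorph f := by
  rw [isLocalHomeomorph_iff_isOpenEmbedding_restrict]
  intro v
  obtain ⟨i, hi⟩ := exists_ne v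
  set U : Set X := {w | 0 < w.1 i * v.1 i} with hU
  have hUo : IsOpen U :=
    isOpen_lt continuous_const (((continuous_apply i).comp continuous_subtype_val).mul continuous_const)
  have hvU : v ∈ U := mul_self_pos.2 hi
  refine ⟨U, hUo.mem_nhds hvU, ?_⟩
  refine IsOpenEmbedding.of_continuous_injective_isOpenMap
    (f_cont.comp continuous_subtype_val) ?_ (f_open.comp hUo.isOpenMap_subtype_val)
  rintro ⟨a, ha⟩ ⟨b, hb⟩ hab
  have hab' : f a = f b := hab
  rcases f_eq hab' with h | h
  · exact Subtype.ext h.symm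
  · exfalso
    subst h
    have ha' : 0 < a.1 i * v.1 i := ha
    have hb' : 0 < (-a.1 i) * v.1 i := hb
    linarith

/-! ### Lifting -/

/-- The wedge of two discs. -/
def E : Set (Fin 4 → ℝ) :=
  {x | x 0 * x 0 + x 1 * x 1 + x 2 * x 2 + x 3 * x 3 ≤ 1 ∧
    ((x 2 = 0 ∧ x 3 = 0) ∨ (x 0 = 0 ∧ x 1 = 0))}

def q (x : Fin 4 → ℝ) : ℝ := x 0 * x 0 + x 1 * x 1 + x 2 * x 2 + x 3 * x 3

theorem q_cont : Continuous q := by
  have h : ∀ i, Continuous fun v : Fin 4 → ℝ => v i := fun i => continuous_apply i
  exact ((((h 0).mul (h 0)).add ((h 1).mul (h 1))).add ((h 2).mul (h 2))).add ((h 3).mul (h 3))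

/-- the upper hemispheres as a graph over the discs -/
def c (x : E) : X := ⟨![x.1 0, x.1 1, Real.sqrt (1 - q x.1), x.1 2, x.1 3], by
  obtain ⟨h1, h2⟩ := x.2
  refine ⟨?_, ?_⟩
  · have h3 : Real.sqrt (1 - q x.1) * Real.sqrt (1 - q x.1) = 1 - q x.1 :=
      Real.mul_self_sqrt (by unfold q; linarith)
    simp
    rw [h3]
    unfold q
    ring
  · rcases h2 with h | h
    · exact Or.inl h
    · exact Or.inr h⟩

theorem c_cont : Continuous c := by
  have h : ∀ i, Continuous fun v : E => v.1 i := fun i =>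
    (continuous_apply i).comp continuous_subtype_val
  refine Continuous.subtype_mk (continuous_pi fun i => ?_) _
  fin_cases i
  · exact h 0
  · exact h 1
  · exact (Real.continuous_sqrt.comp (continuous_const.sub (q_cont.comp continuous_subtype_val)))
  · exact h 2
  · exact h 3

def pr (v : X) : E := ⟨![v.1 0, v.1 1, v.1 3, v.1 4], by
  obtain ⟨h1, h2⟩ := v.2
  refine ⟨?_, ?_⟩
  · simp
    nlinarith [mul_self_nonneg (v.1 2)]
  · rcases h2 with h | h
    · exact Or.inl h
    · exact Or.inr h⟩

theorem pr_cont : Continuous pr := by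
  have h : ∀ i, Continuous fun v : X => v.1 i := fun i =>
    (continuous_apply i).comp continuous_subtype_val
  refine Continuous.subtype_mk (continuous_pi fun i => ?_) _
  fin_cases i
  · exact h 0
  · exact h 1
  · exact h 3
  · exact h 4

theorem c_pr {v : X} (hv : 0 ≤ v.1 2) : c (pr v) = v := by
  apply Subtype.ext
  funext i
  fin_cases i
  · rfl
  · rfl
  · show Real.sqrt (1 - q (pr v).1) = v.1 2
    have : 1 - q (pr v).1 = v.1 2 * v.1 2 := by
      have h := v.2.1
      show 1 - (v.1 0 * v.1 0 + v.1 1 * v.1 1 + v.1 3 * v.1 3 + v.1 4 * v.1 4) = _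
      linarith
    rw [this, Real.sqrt_mul_self hv]
  · rfl
  · rfl

def sc (t : unitInterval) (x : E) : E := ⟨fun i => (t : ℝ) * x.1 i, by
  obtain ⟨h1, h2⟩ := x.2
  refine ⟨?_, ?_⟩
  · have h3 : (t : ℝ) * t ≤ 1 := by nlinarith [t.2.1, t.2.2]
    have h4 : 0 ≤ q x.1 := by
      unfold q
      nlinarith [mul_self_nonneg (x.1 0), mul_self_nonneg (x.1 1), mul_self_nonneg (x.1 2),
        mul_self_nonneg (x.1 3)]
    have h5 : q x.1 ≤ 1 := h1
    have h6 : ((t : ℝ) * t) * q x.1 ≤ 1 := by nlinarith [mul_self_nonneg (t : ℝ)]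
    have h7 : ((t : ℝ) * t) * q x.1 = (t : ℝ) * x.1 0 * (t * x.1 0) + (t : ℝ) * x.1 1 * (t * x.1 1)
      + (t : ℝ) * x.1 2 * (t * x.1 2) + (t : ℝ) * x.1 3 * (t * x.1 3) := by
      unfold q; ring
    rw [← h7]
    exact h6
  · rcases h2 with ⟨h, h'⟩ | ⟨h, h'⟩
    · exact Or.inl ⟨by simp [h], by simp [h']⟩
    · exact Or.inr ⟨by simp [h], by simp [h']⟩⟩

theorem sc_cont : Continuous fun z : unitInterval × E => sc z.1 z.2 := by
  refine Continuous.subtype_mk (continuous_pi fun i => ?_) _
  exact (continuous_subtype_val.comp continuous_fst).mul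
    ((continuous_apply i).comp (continuous_subtype_val.comp continuous_snd))

def E0 : E := ⟨fun _ => 0, by refine ⟨by norm_num, Or.inl ⟨rfl, rfl⟩⟩⟩

theorem lift_E (G : E → UnitAddCircle) (hG : Continuous G) :
    ∃ h : E → ℝ, Continuous h ∧ ∀ x, ((h x : ℝ) : UnitAddCircle) = G x := by
  obtain ⟨θ, hθ⟩ := QuotientAddGroup.mk_surjective (G E0)
  let H : C(unitInterval × E, UnitAddCircle) := ⟨fun z => G (sc z.1 z.2), hG.comp sc_cont⟩
  let f0 : C(E, ℝ) := ContinuousMap.const E θ
  have H0 : ∀ a, H (0, a) = ((f0 a : ℝ) : UnitAddCircle) := by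
    intro a
    show G (sc 0 a) = _
    have : sc 0 a = E0 := by
      apply Subtype.ext
      funext i
      simp [sc, E0]
    rw [this]
    exact hθ.symm
  let L := (AddCircle.isCoveringMap_coe (1 : ℝ)).liftHomotopy H f0 H0
  refine ⟨fun x => L (1, x), L.continuous.comp (continuous_const.prodMk continuous_id), ?_⟩
  intro x
  have := congrFun ((AddCircle.isCoveringMap_coe (1 : ℝ)).liftHomotopy_lifts (H := H) (f := f0) H0)
    (1, x)
  have h2 : ((L (1, x) : ℝ) : UnitAddCircle) = H (1, x) := this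
  rw [h2]
  show G (sc 1 x) = G x
  congr 1
  apply Subtype.ext
  funext i
  simp [sc]

def negE (x : E) : E := ⟨-x.1, by
  obtain ⟨h1, h2⟩ := x.2
  refine ⟨by simpa using h1, ?_⟩
  rcases h2 with h | h
  · exact Or.inl ⟨by simp [h.1], by simp [h.2]⟩
  · exact Or.inr ⟨by simp [h.1], by simp [h.2]⟩⟩

theorem negE_cont : Continuous negE :=
  Continuous.subtype_mk (continuous_subtype_val.neg) _

theorem pr_neg (v : X) : pr (neg v) = negE (pr v) := by
  apply Subtype.ext
  funext i
  fin_cases i <;> rfl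

/-- rotation in both discs -/
def rot (t : ℝ) (x : E) : E := ⟨![Real.cos t * x.1 0 - Real.sin t * x.1 1,
    Real.sin t * x.1 0 + Real.cos t * x.1 1, Real.cos t * x.1 2 - Real.sin t * x.1 3,
    Real.sin t * x.1 2 + Real.cos t * x.1 3], by
  obtain ⟨h1, h2⟩ := x.2
  have hcs := Real.cos_sq_add_sin_sq t
  refine ⟨?_, ?_⟩
  · simp
    have : (Real.cos t * x.1 0 - Real.sin t * x.1 1) * (Real.cos t * x.1 0 - Real.sin t * x.1 1) +
      (Real.sin t * x.1 0 + Real.cos t * x.1 1) * (Real.sin t * x.1 0 + Real.cos t * x.1 1) +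
      (Real.cos t * x.1 2 - Real.sin t * x.1 3) * (Real.cos t * x.1 2 - Real.sin t * x.1 3) +
      (Real.sin t * x.1 2 + Real.cos t * x.1 3) * (Real.sin t * x.1 2 + Real.cos t * x.1 3) =
      (Real.cos t ^ 2 + Real.sin t ^ 2) * q x.1 := by
      unfold q; ring
    rw [this, hcs, one_mul]
    exact h1
  · rcases h2 with ⟨h, h'⟩ | ⟨h, h'⟩
    · left
      constructor <;> simp [h, h']
    · right
      constructor <;> simp [h, h']⟩

theorem rot_q (t : ℝ) (x : E) : q (rot t x).1 = q x.1 := by
  have hcs := Real.cos_sq_add_sin_sq t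
  have : q (rot t x).1 = (Real.cos t ^ 2 + Real.sin t ^ 2) * q x.1 := by
    show (Real.cos t * x.1 0 - Real.sin t * x.1 1) * (Real.cos t * x.1 0 - Real.sin t * x.1 1) +
      (Real.sin t * x.1 0 + Real.cos t * x.1 1) * (Real.sin t * x.1 0 + Real.cos t * x.1 1) +
      (Real.cos t * x.1 2 - Real.sin t * x.1 3) * (Real.cos t * x.1 2 - Real.sin t * x.1 3) +
      (Real.sin t * x.1 2 + Real.cos t * x.1 3) * (Real.sin t * x.1 2 + Real.cos t * x.1 3) = _
    unfold q; ring
  rw [this, hcs, one_mul]

theorem rot_cont (x : E) : Continuous fun t => rot t x := by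
  refine Continuous.subtype_mk (continuous_pi fun i => ?_) _
  fin_cases i
  · show Continuous fun t => Real.cos t * x.1 0 - Real.sin t * x.1 1
    fun_prop
  · show Continuous fun t => Real.sin t * x.1 0 + Real.cos t * x.1 1
    fun_prop
  · show Continuous fun t => Real.cos t * x.1 2 - Real.sin t * x.1 3
    fun_prop
  · show Continuous fun t => Real.sin t * x.1 2 + Real.cos t * x.1 3
    fun_prop

theorem rot_zero (x : E) : rot 0 x = x := by
  apply Subtype.ext
  funext i
  fin_cases i <;> simp [rot]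

theorem rot_pi (x : E) : rot Real.pi x = negE x := by
  apply Subtype.ext
  funext i
  fin_cases i <;> simp [rot, negE]

theorem negE_negE (x : E) : negE (negE x) = x := Subtype.ext (neg_neg x.1)

/-- every continuous function to the circle on the quotient lifts -/
theorem lift_Y (g : Y → UnitAddCircle) (hg : Continuous g) :
    ∃ h : Y → ℝ, Continuous h ∧ ∀ y, ((h y : ℝ) : UnitAddCircle) = g y := by
  obtain ⟨h, hh, hlift⟩ := lift_E (fun x => g (f (c x))) (hg.comp (f_cont.comp c_cont))
  -- evenness on the boundary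
  have hq : ∀ x : E, q x.1 = 1 → c (negE x) = neg (c x) := by
    intro x hx
    have hx' : q (negE x).1 = 1 := by
      have : q (negE x).1 = q x.1 := by simp [q, negE]
      rw [this, hx]
    apply Subtype.ext
    funext i
    fin_cases i
    · rfl
    · rfl
    · show Real.sqrt (1 - q (negE x).1) = -Real.sqrt (1 - q x.1)
      rw [hx, hx']
      simp
    · rfl
    · rfl
  have heven : ∀ x : E, q x.1 = 1 → h (negE x) = h x := by
    intro x hx
    have hcon : ∀ t : ℝ, ∃ n : ℤ, h (negE (rot t x)) - h (rot t x) = n := by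
      intro t
      rw [← Q172.Unicoh.coe_eq_iff, hlift, hlift, hq _ (by rw [rot_q, hx]), f_neg]
    have := Q172.Unicoh.int_const (S := (univ : Set ℝ)) isPreconnected_univ
      (u := fun t => h (negE (rot t x)) - h (rot t x))
      ((hh.comp (negE_cont.comp (rot_cont x))).sub (hh.comp (rot_cont x))).continuousOn
      (fun t _ => hcon t) (mem_univ 0) (mem_univ Real.pi)
    simp only [rot_zero, rot_pi, negE_negE] at this
    linarith
  let k : X → ℝ := fun v => if (0 : ℝ) ≤ v.1 2 then h (pr v) else h (negE (pr v))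
  have hk : Continuous k := by
    refine Continuous.if_le (hh.comp pr_cont) (hh.comp (negE_cont.comp pr_cont)) continuous_const
      c2_cont ?_
    intro v hv
    symm
    apply heven
    have h1 := v.2.1
    rw [← hv] at h1
    show v.1 0 * v.1 0 + v.1 1 * v.1 1 + v.1 3 * v.1 3 + v.1 4 * v.1 4 = 1
    linarith
  have hk1 : ∀ v, ((k v : ℝ) : UnitAddCircle) = g (f v) := by
    intro v
    by_cases hv : (0 : ℝ) ≤ v.1 2
    · have : k v = h (pr v) := if_pos hv
      rw [this, hlift, c_pr hv]
    · have : k v = h (negE (pr v)) := if_neg hv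
      rw [this, hlift, ← pr_neg, c_pr, f_neg]
      show 0 ≤ -v.1 2
      linarith
  have hk2 : ∀ v, k (neg v) = k v := by
    intro v
    have e : (neg v).1 2 = -v.1 2 := rfl
    rcases lt_trichotomy (v.1 2) 0 with hv | hv | hv
    · have h1 : k v = h (negE (pr v)) := if_neg (by linarith)
      have h2 : k (neg v) = h (pr (neg v)) := if_pos (by rw [e]; linarith)
      rw [h1, h2, pr_neg]
    · have h1 : k v = h (pr v) := if_pos (by linarith)
      have h2 : k (neg v) = h (pr (neg v)) := if_pos (by rw [e]; linarith)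
      rw [h1, h2, pr_neg]
      apply heven
      have h1 := v.2.1
      rw [hv] at h1
      show v.1 0 * v.1 0 + v.1 1 * v.1 1 + v.1 3 * v.1 3 + v.1 4 * v.1 4 = 1
      linarith
    · have h1 : k v = h (pr v) := if_pos (by linarith)
      have h2 : k (neg v) = h (negE (pr (neg v))) := if_neg (by rw [e]; linarith)
      rw [h1, h2, pr_neg, negE_negE]
  -- descend
  choose s hs using f_surj
  have hks : ∀ v, k (s (f v)) = k v := by
    intro v
    rcases f_eq (hs (f v)) with h | h
    · exact (congrArg k h).symm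
    · have e := hk2 (s (f v))
      rw [← h] at e
      exact e.symm
  refine ⟨fun y => k (s y), ?_, ?_⟩
  · rw [f_quot.continuous_iff]
    have : (fun y => k (s y)) ∘ f = k := funext hks
    rw [this]
    exact hk
  · intro y
    rw [hk1, hs]

end Q172.RP2Wedge
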