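import Mathlib

set_option autoImplicit false
set_option linter.unusedSectionVars false

open Set Topology

namespace Q172.SpanMetric

variable {X : Type} [MetricSpace X] [CompactSpace X]

/-- The function `1 - min (1/2) (distance to A)` on pairs. -/
noncomputable def psi (A : Set (X × X)) (x y : X) : ℝ := 1 - min (1 / 2) (Metric.infDist (x, y) A)

theorem psi_le (A : Set (X × X)) (x y : X) : psi A x y ≤ 1 := by
  unfold psi
  have := Metric.infDist_nonneg (x := (x, y)) (s := A)
  have : 0 ≤ min (1 / 2) (Metric.infDist (x, y) A) := le_min (by norm_num) this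
  linarith

theorem half_le_psi (A : Set (X × X)) (x y : X) : 1 / 2 ≤ psi A x y := by
  unfold psi
  have := min_le_left (1 / 2) (Metric.infDist (x, y) A)
  linarith

theorem psi_lip (A : Set (X × X)) (x y x' y' : X) :
    psi A x y ≤ psi A x' y' + max (dist x x') (dist y y') := by
  unfold psi
  have h := Metric.infDist_le_infDist_add_dist (s := A) (x := (x', y')) (y := (x, y))
  have hd : dist (x', y') (x, y) = max (dist x x') (dist y y') := by
    rw [Prod.dist_eq, dist_comm x' x, dist_comm y' y]
  rw [hd] at h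
  have h0 : 0 ≤ max (dist x x') (dist y y') := le_max_of_le_left dist_nonneg
  have : min (1 / 2) (Metric.infDist (x', y') A) ≤
      min (1 / 2) (Metric.infDist (x, y) A) + max (dist x x') (dist y y') := by
    rcases le_total (1 / 2) (Metric.infDist (x, y) A) with h1 | h1
    · rw [min_eq_left h1]
      have := min_le_left (1 / 2) (Metric.infDist (x', y') A)
      linarith
    · rw [min_eq_right h1]
      exact (min_le_right _ _).trans h
  linarith

theorem psi_eq_one (A : Set (X × X)) (hA : IsClosed A) (hne : A.Nonempty) (x y : X) :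
    1 ≤ psi A x y ↔ (x, y) ∈ A := by
  unfold psi
  rw [hA.mem_iff_infDist_zero hne]
  have := Metric.infDist_nonneg (x := (x, y)) (s := A)
  constructor
  · intro h
    by_contra hcon
    have h1 : 0 < Metric.infDist (x, y) A := lt_of_le_of_ne this (Ne.symm hcon)
    have : 0 < min (1 / 2) (Metric.infDist (x, y) A) := lt_min (by norm_num) h1
    linarith
  · intro h
    rw [h]
    norm_num

theorem psi_symm (A : Set (X × X)) (hs : ∀ x y, (x, y) ∈ A → (y, x) ∈ A) (x y : X) :
    psi A x y = psi A y x := by
  have key : Metric.infDist (x, y) A = Metric.infDist (y, x) A := by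
    have h : Prod.swap '' A = A := by
      ext ⟨a, b⟩
      constructor
      · rintro ⟨⟨c, d⟩, hc, h⟩
        obtain ⟨rfl, rfl⟩ := Prod.mk.inj h
        exact hs _ _ hc
      · intro h
        exact ⟨(b, a), hs _ _ h, rfl⟩
    have hiso : Isometry (Prod.swap : X × X → X × X) := by
      apply Isometry.of_dist_eq
      rintro ⟨a, b⟩ ⟨c, d⟩
      simp only [Prod.swap_prod_mk, Prod.dist_eq, max_comm]
    have := Metric.infDist_image hiso (x := (x, y)) (t := A)
    rw [h] at this
    exact this.symm
  unfold psi
  rw [key]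

/-- the new distance -/
noncomputable def nd (A : Set (X × X)) (L : ℝ) (x y : X) : ℝ := min (psi A x y) (L * dist x y)

theorem nd_tri (A : Set (X × X)) {L : ℝ} (hL : 1 ≤ L) (x y z : X) :
    nd A L x z ≤ nd A L x y + nd A L y z := by
  unfold nd
  have h1 := psi_le A x z
  have h2 := half_le_psi A x y
  have h3 := half_le_psi A y z
  have h4 := psi_lip A x z x y
  have h5 := psi_lip A x z y z
  have h6 := dist_triangle x y z
  have h7 : (0:ℝ) ≤ dist x y := dist_nonneg
  have h8 : (0:ℝ) ≤ dist y z := dist_nonneg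
  rw [dist_self, dist_comm z y, max_eq_right h8] at h4
  rw [dist_self z, max_eq_left h7] at h5
  rcases le_total (psi A x y) (L * dist x y) with a | a
  · rw [min_eq_left a]
    rcases le_total (psi A y z) (L * dist y z) with b | b
    · rw [min_eq_left b]
      exact (min_le_left _ _).trans (by linarith)
    · rw [min_eq_right b]
      refine (min_le_left _ _).trans (h4.trans ?_)
      nlinarith
  · rw [min_eq_right a]
    rcases le_total (psi A y z) (L * dist y z) with b | b
    · rw [min_eq_left b]
      refine (min_le_left _ _).trans (h5.trans ?_)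
      nlinarith
    · rw [min_eq_right b]
      refine (min_le_right _ _).trans ?_
      nlinarith

/-- A copy of a type. -/
structure Wrap (X : Type) where
  val : X

/-- A metric function dominated by the given metric of a compact space defines an equivalent
metric. -/
theorem mk_metric (D : X → X → ℝ) (h0 : ∀ x, D x x = 0) (hc : ∀ x y, D x y = D y x)
    (ht : ∀ x y z, D x z ≤ D x y + D y z) (he : ∀ x y, D x y = 0 → x = y) {L : ℝ} (hL : 0 ≤ L)
    (hl : ∀ x y, D x y ≤ L * dist x y) :
    ∃ (Y : Type) (_ : MetricSpace Y) (e : X ≃ₜ Y), ∀ x y, dist (e x) (e y) = D x y := by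
  let m : MetricSpace (Wrap X) :=
    { dist := fun a b => D a.val b.val
      dist_self := fun a => h0 _
      dist_comm := fun a b => hc _ _
      dist_triangle := fun a b c => ht _ _ _
      eq_of_dist_eq_zero := by
        rintro ⟨a⟩ ⟨b⟩ h
        rw [he a b h] }
  have hcont : Continuous (Wrap.mk : X → Wrap X) := by
    refine (LipschitzWith.of_dist_le_mul (K := L.toNNReal) fun x y => ?_).continuous
    rw [Real.coe_toNNReal _ hL]
    exact hl x y
  let q : X ≃ Wrap X := ⟨Wrap.mk, Wrap.val, fun _ => rfl, fun _ => rfl⟩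
  exact ⟨Wrap X, m, Continuous.homeoOfEquivCompactToT2 (f := q) hcont, fun x y => rfl⟩

/-- A compact metric space has an equivalent metric, bounded by one, whose pairs at distance one
are exactly the pairs of `K` and the reversed pairs. -/
theorem exists_metric {K O : Set (X × X)} (hK : IsCompact K) (hne : K.Nonempty)
    (hdiag : ∀ x, (x, x) ∉ K) (hdis : ∀ x y, (x, y) ∈ K → (y, x) ∉ K) (hO : IsOpen O)
    (hKO : K ⊆ O) :
    ∃ (Y : Type) (_ : MetricSpace Y) (e : X ≃ₜ Y) (L ε₀ : ℝ), 0 < L ∧ 0 ≤ ε₀ ∧ ε₀ < 1 ∧
      (∀ x y, dist (e x) (e y) ≤ 1) ∧ (∀ x y, dist (e x) (e y) ≤ L * dist x y) ∧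
      (∀ x y, (x, y) ∈ K → dist (e x) (e y) = 1) ∧
      ∀ Z : Set (X × X), IsPreconnected Z → (∀ p ∈ Z, ε₀ < dist (e p.1) (e p.2)) →
        Z ⊆ O ∨ Z ⊆ Prod.swap ⁻¹' O := by
  set A : Set (X × X) := K ∪ Prod.swap ⁻¹' K with hA
  have hK' : IsCompact (Prod.swap ⁻¹' K : Set (X × X)) := by
    have : (Prod.swap ⁻¹' K : Set (X × X)) = Prod.swap '' K := by
      ext ⟨a, b⟩
      constructor
      · intro h; exact ⟨(b, a), h, rfl⟩
      · rintro ⟨⟨c, d⟩, h, h'⟩
        obtain ⟨rfl, rfl⟩ := Prod.mk.inj h'
        exact h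
    rw [this]
    exact hK.image continuous_swap
  have hAc : IsClosed A := (hK.union hK').isClosed
  have hAne : A.Nonempty := hne.mono subset_union_left
  have hAs : ∀ x y, (x, y) ∈ A → (y, x) ∈ A := by
    rintro x y (h | h)
    · exact Or.inr h
    · exact Or.inl h
  have hAd : ∀ x, (x, x) ∉ A := by
    rintro x (h | h)
    · exact hdiag x h
    · exact hdiag x h
  -- choice of L
  obtain ⟨δ, hδ, hδA⟩ : ∃ δ > 0, ∀ p ∈ A, δ ≤ dist p.1 p.2 := by
    obtain ⟨m, hm, hmin⟩ := hAc.isCompact.exists_isMinOn hAne
      (continuous_fst.dist continuous_snd).continuousOn (f := fun p : X × X => dist p.1 p.2)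
    refine ⟨dist m.1 m.2, ?_, fun p hp => hmin hp⟩
    refine dist_pos.2 ?_
    intro h
    have : m = (m.1, m.1) := Prod.ext rfl h.symm
    rw [this] at hm
    exact hAd _ hm
  set L : ℝ := max 1 (1 / δ) with hLdef
  have hL1 : 1 ≤ L := le_max_left _ _
  have hLδ : 1 ≤ L * δ := by
    have : 1 / δ ≤ L := le_max_right _ _
    rwa [div_le_iff₀ hδ] at this
  have hL0 : 0 < L := by linarith
  obtain ⟨Y, m, e, he⟩ := mk_metric (nd A L)
    (by
      intro x
      show min _ _ = _
      have := half_le_psi A x x
      rw [dist_self, mul_zero, min_eq_right (by linarith)])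
    (by
      intro x y
      show min _ _ = min _ _
      rw [psi_symm A hAs, dist_comm])
    (nd_tri A hL1)
    (by
      intro x y h
      have h' : min (psi A x y) (L * dist x y) = 0 := h
      have h1 := half_le_psi A x y
      rcases le_total (psi A x y) (L * dist x y) with a | a
      · rw [min_eq_left a] at h'; linarith
      · rw [min_eq_right a] at h'
        rcases mul_eq_zero.1 h' with h2 | h2
        · linarith
        · exact dist_eq_zero.1 h2)
    hL0.le (fun x y => min_le_right _ _)
  -- the function of pairs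
  let D : X × X → ℝ := fun p => min (psi A p.1 p.2) (L * dist p.1 p.2)
  have hpsi : Continuous fun p : X × X => psi A p.1 p.2 :=
    continuous_const.sub (continuous_const.min (Metric.continuous_infDist_pt A))
  have hD : Continuous D := hpsi.min (continuous_const.mul (continuous_fst.dist continuous_snd))
  have hD1 : ∀ p, 1 ≤ D p ↔ p ∈ A := by
    rintro ⟨x, y⟩
    constructor
    · intro h
      have h' : 1 ≤ min (psi A x y) (L * dist x y) := h
      exact (psi_eq_one A hAc hAne x y).1 (h'.trans (min_le_left _ _))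
    · intro h
      refine le_min ((psi_eq_one A hAc hAne x y).2 h) ?_
      have := hδA _ h
      calc 1 ≤ L * δ := hLδ
        _ ≤ L * dist x y := by gcongr
  -- separation
  have hO' : IsOpen (Prod.swap ⁻¹' O : Set (X × X)) := hO.preimage continuous_swap
  obtain ⟨U, V, hU, hV, hKU, hKV, hUV⟩ := SeparatedNhds.of_isCompact_isCompact hK hK' (by
    rw [disjoint_left]
    rintro ⟨x, y⟩ h1 h2
    exact hdis x y h1 h2)
  set W : Set (X × X) := (U ∩ O) ∪ (V ∩ Prod.swap ⁻¹' O) with hW
  have hWo : IsOpen W := (hU.inter hO).union (hV.inter hO')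
  have hAW : A ⊆ W := by
    rintro p (h | h)
    · exact Or.inl ⟨hKU h, hKO h⟩
    · exact Or.inr ⟨hKV h, hKO h⟩
  obtain ⟨ε₀, h0, h1, hε⟩ : ∃ ε₀ : ℝ, 0 ≤ ε₀ ∧ ε₀ < 1 ∧ ∀ p, ε₀ < D p → p ∈ W := by
    by_cases hWc : (Wᶜ).Nonempty
    · obtain ⟨q, hq, hmax⟩ := hWo.isClosed_compl.isCompact.exists_isMaxOn hWc hD.continuousOn
      have hq1 : D q < 1 := by
        by_contra hcon
        push Not at hcon
        exact hq (hAW ((hD1 q).1 hcon))
      have hq0 : 0 ≤ D q :=
        le_min ((by norm_num : (0:ℝ) ≤ 1 / 2).trans (half_le_psi A _ _)) (by positivity)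
      refine ⟨D q, hq0, hq1, fun p hp => ?_⟩
      by_contra hcon
      have : D p ≤ D q := hmax hcon
      linarith
    · rw [not_nonempty_iff_eq_empty, compl_empty_iff] at hWc
      exact ⟨0, le_rfl, one_pos, fun p _ => by rw [hWc]; trivial⟩
  refine ⟨Y, m, e, L, ε₀, hL0, h0, h1, ?_, ?_, ?_, ?_⟩
  · intro x y
    rw [he]
    exact (min_le_left _ _).trans (psi_le A x y)
  · intro x y
    rw [he]
    exact min_le_right _ _
  · intro x y hxy
    rw [he]
    exact le_antisymm ((min_le_left _ _).trans (psi_le A x y)) ((hD1 (x, y)).2 (Or.inl hxy))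
  · intro Z hZ hZd
    have hZW : Z ⊆ (U ∩ O) ∪ (V ∩ Prod.swap ⁻¹' O) := by
      intro p hp
      have := hZd p hp
      rw [he] at this
      exact hε p this
    rcases hZ.subset_or_subset (hU.inter hO) (hV.inter hO')
      (hUV.mono inter_subset_left inter_subset_left) hZW with h | h
    · exact Or.inl (h.trans inter_subset_right)
    · exact Or.inr (h.trans inter_subset_right)

end Q172.SpanMetric
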