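import Mathlib
import Pool.Agent.Q172.SpanMetric

set_option autoImplicit false

open Set Topology

namespace Q172.SpanCircle

/-- A connected set of pairs on which a real function separates the two coordinates uniformly does
not have equal projections. -/
theorem no_equal_proj {X : Type} [TopologicalSpace X] {Z : Set (X × X)} (hZ : IsConnected Z)
    (heq : Prod.fst '' Z = Prod.snd '' Z) {h : X → ℝ} (hc : ContinuousOn h (Prod.fst '' Z))
    {δ : ℝ} (hδ : 0 < δ) (hg : ∀ p ∈ Z, δ ≤ |h p.2 - h p.1|) {B : ℝ} (hB : ∀ x, h x ≤ B) :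
    False := by
  have hg2 : ContinuousOn (fun p : X × X => h p.2 - h p.1) Z := by
    apply ContinuousOn.sub
    · apply hc.comp continuous_snd.continuousOn
      intro p hp
      rw [heq]
      exact ⟨p, hp, rfl⟩
    · exact hc.comp continuous_fst.continuousOn (fun p hp => ⟨p, hp, rfl⟩)
  have hord := (hZ.isPreconnected.image _ hg2).ordConnected
  obtain ⟨p0, hp0⟩ := hZ.nonempty
  set S : Set ℝ := h '' (Prod.fst '' Z) with hS
  have hSne : S.Nonempty := ⟨h p0.1, p0.1, ⟨p0, hp0, rfl⟩, rfl⟩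
  have hSb : BddAbove S := ⟨B, by rintro _ ⟨x, _, rfl⟩; exact hB x⟩
  obtain ⟨_, ⟨x, hx, rfl⟩, hxs⟩ := exists_lt_of_lt_csSup hSne (show sSup S - δ < sSup S by linarith)
  have hsign : (∀ p ∈ Z, δ ≤ h p.2 - h p.1) ∨ (∀ p ∈ Z, h p.2 - h p.1 ≤ -δ) := by
    by_contra hcon
    push Not at hcon
    obtain ⟨⟨p, hp, hp1⟩, ⟨q, hq, hq1⟩⟩ := hcon
    have hp2 : h p.2 - h p.1 ≤ 0 := by
      by_contra hh
      push Not at hh
      have := hg p hp
      rw [abs_of_pos hh] at this
      linarith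
    have hq2 : 0 ≤ h q.2 - h q.1 := by
      by_contra hh
      push Not at hh
      have := hg q hq
      rw [abs_of_neg hh] at this
      linarith
    obtain ⟨r, hr, hr0⟩ := hord.out ⟨p, hp, rfl⟩ ⟨q, hq, rfl⟩ ⟨hp2, hq2⟩
    have := hg r hr
    have hr0' : h r.2 - h r.1 = 0 := hr0
    rw [hr0', abs_zero] at this
    linarith
  rcases hsign with hs | hs
  · obtain ⟨p, hp, rfl⟩ := hx
    have h1 : h p.2 ∈ S := ⟨p.2, by rw [heq]; exact ⟨p, hp, rfl⟩, rfl⟩
    have h2 := le_csSup hSb h1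
    have h3 := hs p hp
    linarith
  · rw [heq] at hx
    obtain ⟨p, hp, rfl⟩ := hx
    have h1 : h p.1 ∈ S := ⟨p.1, ⟨p, hp, rfl⟩, rfl⟩
    have h2 := le_csSup hSb h1
    have h3 := hs p hp
    linarith

/-- The circle of length eight. -/
abbrev C8 : Type := AddCircle (8 : ℝ)

instance : Fact ((0 : ℝ) < 8) := ⟨by norm_num⟩

noncomputable def f (x : ℝ) : ℝ := 7 + min (7 * x / 2) (x / 2)

theorem f_cont : Continuous f := by unfold f; fun_prop

theorem f_bounds {x : ℝ} (h : x ∈ Icc (-2 : ℝ) 2) :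
    0 ≤ f x ∧ f x ≤ 8 ∧ x + 2 ≤ f x ∧ f x ≤ x + 7 ∧ (0 ≤ x → 7 ≤ f x) ∧
      (f x ≤ 2 → x ≤ -10 / 7) := by
  obtain ⟨h1, h2⟩ := h
  unfold f
  rcases le_total (7 * x / 2) (x / 2) with a | a
  · rw [min_eq_left a]
    refine ⟨by linarith, by linarith, by linarith, by linarith, fun _ => by linarith,
      fun _ => by linarith⟩
  · rw [min_eq_right a]
    refine ⟨by linarith, by linarith, by linarith, by linarith, fun _ => by linarith,
      fun _ => by linarith⟩

/-- The pairs. -/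
def K : Set (C8 × C8) := (fun x : ℝ => ((f x : C8), (x : C8))) '' Icc (-2) 2

theorem K_cont : Continuous (fun x : ℝ => ((f x : C8), (x : C8))) :=
  ((AddCircle.continuous_mk' (8 : ℝ)).comp f_cont).prodMk (AddCircle.continuous_mk' (8 : ℝ))

theorem K_compact : IsCompact K := isCompact_Icc.image K_cont

theorem K_connected : IsConnected K := by
  apply IsConnected.image _ _ K_cont.continuousOn
  exact isConnected_Icc (by norm_num)

theorem coe_eq {a b : ℝ} (h : (a : C8) = (b : C8)) : ∃ n : ℤ, a = b + 8 * n := by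
  rw [← sub_eq_zero, ← AddCircle.coe_sub, AddCircle.coe_eq_zero_iff] at h
  obtain ⟨n, hn⟩ := h
  refine ⟨n, ?_⟩
  rw [zsmul_eq_mul] at hn
  linarith

theorem K_diag (z : C8) : (z, z) ∉ K := by
  rintro ⟨x, hx, h⟩
  have h1 : ((f x : ℝ) : C8) = z := congrArg Prod.fst h
  have h2 : ((x : ℝ) : C8) = z := congrArg Prod.snd h
  obtain ⟨n, hn⟩ := coe_eq (h1.trans h2.symm)
  obtain ⟨b1, b2, b3, b4, -, -⟩ := f_bounds hx
  have h3 : (0 : ℝ) < n := by linarith
  have h4 : (n : ℝ) < 1 := by linarith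
  have h5 : (0 : ℤ) < n := by exact_mod_cast h3
  have h6 : n < (1 : ℤ) := by exact_mod_cast h4
  omega

theorem K_swap (z w : C8) (h : (z, w) ∈ K) : (w, z) ∉ K := by
  obtain ⟨x, hx, hxz⟩ := h
  rintro ⟨y, hy, hyz⟩
  have h1 : ((f x : ℝ) : C8) = z := congrArg Prod.fst hxz
  have h2 : ((x : ℝ) : C8) = w := congrArg Prod.snd hxz
  have h3 : ((f y : ℝ) : C8) = w := congrArg Prod.fst hyz
  have h4 : ((y : ℝ) : C8) = z := congrArg Prod.snd hyz
  obtain ⟨m, hm⟩ := coe_eq (h1.trans h4.symm)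
  obtain ⟨n, hn⟩ := coe_eq (h3.trans h2.symm)
  obtain ⟨b1, b2, b3, b4, b5, b6⟩ := f_bounds hx
  obtain ⟨c1, c2, c3, c4, c5, c6⟩ := f_bounds hy
  obtain ⟨x1, x2⟩ := hx
  obtain ⟨y1, y2⟩ := hy
  have hm1 : (-1 : ℝ) < m := by linarith
  have hm2 : (m : ℝ) < 2 := by linarith
  have hn1 : (-1 : ℝ) < n := by linarith
  have hn2 : (n : ℝ) < 2 := by linarith
  have hm1' : (-1 : ℤ) < m := by exact_mod_cast hm1
  have hm2' : m < (2 : ℤ) := by exact_mod_cast hm2
  have hn1' : (-1 : ℤ) < n := by exact_mod_cast hn1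
  have hn2' : n < (2 : ℤ) := by exact_mod_cast hn2
  have hm3 : m = 0 ∨ m = 1 := by omega
  have hn3 : n = 0 ∨ n = 1 := by omega
  rcases hm3 with rfl | rfl <;> rcases hn3 with rfl | rfl <;> push_cast at hm hn
  · linarith
  · have h5 : x ≤ -10 / 7 := b6 (by linarith)
    have h6 : 7 ≤ f y := c5 (by linarith)
    linarith
  · have h5 : y ≤ -10 / 7 := c6 (by linarith)
    have h6 : 7 ≤ f x := b5 (by linarith)
    linarith
  · linarith

theorem K_fst : Prod.fst '' K = univ := by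
  apply eq_univ_of_forall
  intro z
  obtain ⟨y, hy⟩ := (AddCircle.equivIco (8 : ℝ) 0).symm.surjective z
  have hy' : ((y.1 : ℝ) : C8) = z := hy
  have hy2 := y.2
  have hivt := intermediate_value_Icc (show (-2 : ℝ) ≤ 2 by norm_num) f_cont.continuousOn
  have e1 : f (-2) = 0 := by unfold f; norm_num
  have e2 : f 2 = 8 := by unfold f; norm_num
  rw [e1, e2] at hivt
  obtain ⟨x, hx, hxy⟩ := hivt ⟨hy2.1, by linarith [hy2.2]⟩
  refine ⟨(z, (x : C8)), ⟨x, hx, ?_⟩, rfl⟩
  rw [← hy', ← hxy]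

/-- pairs whose second coordinate is near the base point -/
def O : Set (C8 × C8) := {p | ‖p.2‖ < 3}

theorem O_open : IsOpen O := isOpen_lt continuous_snd.norm continuous_const

theorem norm_coe_le (s : ℝ) : ‖(s : C8)‖ ≤ |s| := QuotientAddGroup.norm_mk_le_norm (M := ℝ) (m := s)

theorem K_sub : K ⊆ O := by
  rintro _ ⟨x, hx, rfl⟩
  show ‖(x : C8)‖ < 3
  have := norm_coe_le x
  have h2 : |x| ≤ 2 := abs_le.2 hx
  linarith

noncomputable def ch (z : C8) : ℝ := (AddCircle.equivIco (8 : ℝ) (-4) z : ℝ)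

theorem ch_coe (z : C8) : ((ch z : ℝ) : C8) = z := AddCircle.coe_equivIco

theorem ch_le (z : C8) : ch z ≤ 4 := by
  have := (AddCircle.equivIco (8 : ℝ) (-4) z).2.2
  unfold ch
  linarith

theorem ch_cont {z : C8} (hz : ‖z‖ < 3) : ContinuousAt ch z := by
  have hne : z ≠ ((-4 : ℝ) : C8) := by
    rintro rfl
    have : ‖((-4 : ℝ) : C8)‖ = |(-4 : ℝ)| :=
      (AddCircle.norm_coe_eq_abs_iff 8 (by norm_num)).2 (by norm_num)
    rw [this] at hz
    norm_num at hz
  exact continuousAt_subtype_val.comp (AddCircle.continuousAt_equivIco (8 : ℝ) (-4) hne)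

theorem ch_dist (z w : C8) : dist z w ≤ |ch w - ch z| := by
  rw [dist_comm, dist_eq_norm]
  have := norm_coe_le (ch w - ch z)
  rwa [AddCircle.coe_sub, ch_coe, ch_coe] at this

/-- The metric on the circle. -/
theorem exists_circle : ∃ (Y : Type) (_ : MetricSpace Y) (_ : C8 ≃ₜ Y) (ε₀ : ℝ),
    0 ≤ ε₀ ∧ ε₀ < 1 ∧ (∀ a b : Y, dist a b ≤ 1) ∧
    (∃ Z : Set (Y × Y), IsConnected Z ∧ Prod.fst '' Z = univ ∧ ∀ p ∈ Z, 1 ≤ dist p.1 p.2) ∧
    (∀ Z : Set (Y × Y), IsConnected Z → Prod.fst '' Z = Prod.snd '' Z →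
      ∃ p ∈ Z, dist p.1 p.2 ≤ ε₀) := by
  obtain ⟨Y, m, e, L, ε₀, hL, h0, h1, h2, h3, h4, h5⟩ := Q172.SpanMetric.exists_metric K_compact
    K_connected.nonempty K_diag K_swap O_open K_sub
  refine ⟨Y, m, e, (ε₀ + 1) / 2, by linarith, by linarith, ?_, ?_, ?_⟩
  · intro a b
    have := h2 (e.symm a) (e.symm b)
    rwa [e.apply_symm_apply, e.apply_symm_apply] at this
  · refine ⟨Prod.map e e '' K, ?_, ?_, ?_⟩
    · exact K_connected.image _ (e.continuous.prodMap e.continuous).continuousOn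
    · apply eq_univ_of_forall
      intro y
      obtain ⟨p, hp, hpy⟩ : e.symm y ∈ Prod.fst '' K := by rw [K_fst]; trivial
      refine ⟨Prod.map e e p, ⟨p, hp, rfl⟩, ?_⟩
      show e p.1 = y
      rw [hpy, e.apply_symm_apply]
    · rintro _ ⟨p, hp, rfl⟩
      exact (h4 p.1 p.2 hp).ge
  · intro Z hZ heq
    by_contra hcon
    push Not at hcon
    set Z' : Set (C8 × C8) := Prod.map e.symm e.symm '' Z with hZ'
    have hZ'c : IsConnected Z' :=
      hZ.image _ (e.symm.continuous.prodMap e.symm.continuous).continuousOn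
    have hfst : Prod.fst '' Z' = e.symm '' (Prod.fst '' Z) := by
      rw [hZ', image_image, image_image]
      rfl
    have hsnd : Prod.snd '' Z' = e.symm '' (Prod.snd '' Z) := by
      rw [hZ', image_image, image_image]
      rfl
    have heq' : Prod.fst '' Z' = Prod.snd '' Z' := by rw [hfst, hsnd, heq]
    have hd : ∀ p ∈ Z', (ε₀ + 1) / 2 < dist (e p.1) (e p.2) := by
      rintro _ ⟨q, hq, rfl⟩
      have := hcon q hq
      simpa using this
    have hsub : Prod.fst '' Z' ⊆ {z | ‖z‖ < 3} := by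
      rcases h5 Z' hZ'c.isPreconnected (fun p hp => lt_trans (by linarith) (hd p hp)) with h | h
      · rw [heq']
        rintro _ ⟨p, hp, rfl⟩
        exact h hp
      · rintro _ ⟨p, hp, rfl⟩
        exact h hp
    refine no_equal_proj hZ'c heq' (h := ch) ?_ (δ := (ε₀ + 1) / 2 / L) (by positivity) ?_ ch_le
    · intro z hz
      exact (ch_cont (hsub hz)).continuousWithinAt
    · intro p hp
      refine le_trans ?_ (ch_dist p.1 p.2)
      rw [div_le_iff₀ hL, mul_comm]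
      exact (hd p hp).le.trans (h3 _ _)

end Q172.SpanCircle
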