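import Mathlib
import Pool.Agent.Q172.SpanMetric

set_option autoImplicit false

open Set Topology

noncomputable section

namespace Q172.SpanTriod

/-- The union of three coordinate unit segments. -/
def T : Set (Fin 3 → ℝ) :=
  {v | (∀ i, 0 ≤ v i) ∧ (∀ i, v i ≤ 1) ∧ v 0 * v 1 = 0 ∧ v 0 * v 2 = 0 ∧ v 1 * v 2 = 0}

theorem T_closed : IsClosed T := by
  have h0 : Continuous fun v : Fin 3 → ℝ => v 0 := continuous_apply 0
  have h1 : Continuous fun v : Fin 3 → ℝ => v 1 := continuous_apply 1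
  have h2 : Continuous fun v : Fin 3 → ℝ => v 2 := continuous_apply 2
  have : T = (⋂ i, {v : Fin 3 → ℝ | 0 ≤ v i}) ∩ ((⋂ i, {v : Fin 3 → ℝ | v i ≤ 1}) ∩
      ({v | v 0 * v 1 = 0} ∩ ({v | v 0 * v 2 = 0} ∩ {v | v 1 * v 2 = 0}))) := by
    ext v
    simp only [T, mem_inter_iff, mem_iInter, mem_ofPred_eq]
  rw [this]
  refine (isClosed_iInter fun i => isClosed_le continuous_const (continuous_apply i)).inter
    ((isClosed_iInter fun i => isClosed_le (continuous_apply i) continuous_const).inter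
    ((isClosed_eq (h0.mul h1) continuous_const).inter
    ((isClosed_eq (h0.mul h2) continuous_const).inter
    (isClosed_eq (h1.mul h2) continuous_const))))

theorem T_compact : IsCompact T := by
  refine (isCompact_Icc (a := (0 : Fin 3 → ℝ)) (b := 1)).of_isClosed_subset T_closed ?_
  intro v hv
  exact ⟨fun i => hv.1 i, fun i => hv.2.1 i⟩

instance : CompactSpace T := isCompact_iff_compactSpace.1 T_compact

def X0 (t : ℝ) : ℝ := max 0 (1 - t / 2)
def X1 (t : ℝ) : ℝ := max 0 (1 - |t - 3|)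
def X2 (t : ℝ) : ℝ := max 0 (t - 4)
def Y0 (t : ℝ) : ℝ := max 0 (max ((1 - t) / 4) (1 - |t - 4|))
def Y2 (t : ℝ) : ℝ := max 0 ((1 - |t - 2|) / 2)

theorem cases5 {t : ℝ} (h : t ∈ Icc (0 : ℝ) 5) :
    ((0 ≤ t ∧ t ≤ 1) ∧ X0 t = 1 - t / 2 ∧ X1 t = 0 ∧ X2 t = 0 ∧ Y0 t = (1 - t) / 4 ∧ Y2 t = 0) ∨
    ((1 ≤ t ∧ t ≤ 2) ∧ X0 t = 1 - t / 2 ∧ X1 t = 0 ∧ X2 t = 0 ∧ Y0 t = 0 ∧ Y2 t = (t - 1) / 2) ∨
    ((2 ≤ t ∧ t ≤ 3) ∧ X0 t = 0 ∧ X1 t = t - 2 ∧ X2 t = 0 ∧ Y0 t = 0 ∧ Y2 t = (3 - t) / 2) ∨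
    ((3 ≤ t ∧ t ≤ 4) ∧ X0 t = 0 ∧ X1 t = 4 - t ∧ X2 t = 0 ∧ Y0 t = t - 3 ∧ Y2 t = 0) ∨
    ((4 ≤ t ∧ t ≤ 5) ∧ X0 t = 0 ∧ X1 t = 0 ∧ X2 t = t - 4 ∧ Y0 t = 5 - t ∧ Y2 t = 0) := by
  obtain ⟨h0, h5⟩ := h
  unfold X0 X1 X2 Y0 Y2
  rcases le_total t 1 with h1 | h1
  · left
    rw [abs_of_nonpos (by linarith : t - 3 ≤ 0), abs_of_nonpos (by linarith : t - 4 ≤ 0),
      abs_of_nonpos (by linarith : t - 2 ≤ 0)]
    refine ⟨⟨h0, h1⟩, max_eq_right (by linarith), max_eq_left (by linarith),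
      max_eq_left (by linarith), ?_, max_eq_left (by linarith)⟩
    rw [max_eq_left (b := 1 - -(t - 4)) (by linarith), max_eq_right (by linarith)]
  right
  rcases le_total t 2 with h2 | h2
  · left
    rw [abs_of_nonpos (by linarith : t - 3 ≤ 0), abs_of_nonpos (by linarith : t - 4 ≤ 0),
      abs_of_nonpos (by linarith : t - 2 ≤ 0)]
    refine ⟨⟨h1, h2⟩, max_eq_right (by linarith), max_eq_left (by linarith),
      max_eq_left (by linarith), ?_, ?_⟩
    · exact max_eq_left (max_le (by linarith) (by linarith))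
    · rw [max_eq_right (by linarith)]; ring
  right
  rcases le_total t 3 with h3 | h3
  · left
    rw [abs_of_nonpos (by linarith : t - 3 ≤ 0), abs_of_nonpos (by linarith : t - 4 ≤ 0),
      abs_of_nonneg (by linarith : 0 ≤ t - 2)]
    refine ⟨⟨h2, h3⟩, max_eq_left (by linarith), ?_, max_eq_left (by linarith), ?_, ?_⟩
    · rw [max_eq_right (by linarith)]; ring
    · exact max_eq_left (max_le (by linarith) (by linarith))
    · rw [max_eq_right (by linarith)]; ring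
  right
  rcases le_total t 4 with h4 | h4
  · left
    rw [abs_of_nonneg (by linarith : 0 ≤ t - 3), abs_of_nonpos (by linarith : t - 4 ≤ 0),
      abs_of_nonneg (by linarith : 0 ≤ t - 2)]
    refine ⟨⟨h3, h4⟩, max_eq_left (by linarith), ?_, max_eq_left (by linarith), ?_, ?_⟩
    · rw [max_eq_right (by linarith)]; ring
    · rw [max_eq_right (a := (1 - t) / 4) (by linarith), max_eq_right (by linarith)]; ring
    · exact max_eq_left (by linarith)
  right
  rw [abs_of_nonneg (by linarith : 0 ≤ t - 3), abs_of_nonneg (by linarith : 0 ≤ t - 4),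
    abs_of_nonneg (by linarith : 0 ≤ t - 2)]
  refine ⟨⟨h4, h5⟩, max_eq_left (by linarith), max_eq_left (by linarith),
    max_eq_right (by linarith), ?_, max_eq_left (by linarith)⟩
  rw [max_eq_right (a := (1 - t) / 4) (by linarith), max_eq_right (by linarith)]; ring

theorem x_mem {t : ℝ} (h : t ∈ Icc (0 : ℝ) 5) : ![X0 t, X1 t, X2 t] ∈ T := by
  rcases cases5 h with ⟨⟨a, b⟩, e1, e2, e3, e4, e5⟩ | ⟨⟨a, b⟩, e1, e2, e3, e4, e5⟩ |
    ⟨⟨a, b⟩, e1, e2, e3, e4, e5⟩ | ⟨⟨a, b⟩, e1, e2, e3, e4, e5⟩ | ⟨⟨a, b⟩, e1, e2, e3, e4, e5⟩ <;>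
  rw [e1, e2, e3] <;>
  · refine ⟨?_, ?_, by simp, by simp, by simp⟩
    · intro i
      fin_cases i <;> simp <;> linarith
    · intro i
      fin_cases i <;> simp <;> linarith

theorem y_mem {t : ℝ} (h : t ∈ Icc (0 : ℝ) 5) : ![Y0 t, 0, Y2 t] ∈ T := by
  rcases cases5 h with ⟨⟨a, b⟩, e1, e2, e3, e4, e5⟩ | ⟨⟨a, b⟩, e1, e2, e3, e4, e5⟩ |
    ⟨⟨a, b⟩, e1, e2, e3, e4, e5⟩ | ⟨⟨a, b⟩, e1, e2, e3, e4, e5⟩ | ⟨⟨a, b⟩, e1, e2, e3, e4, e5⟩ <;>
  rw [e4, e5] <;>
  · refine ⟨?_, ?_, by simp, by simp, by simp⟩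
    · intro i
      fin_cases i <;> simp <;> linarith
    · intro i
      fin_cases i <;> simp <;> linarith

/-- the path of pairs -/
def g (t : Icc (0 : ℝ) 5) : T × T :=
  (⟨![X0 t, X1 t, X2 t], x_mem t.2⟩, ⟨![Y0 t, 0, Y2 t], y_mem t.2⟩)

theorem g_cont : Continuous g := by
  refine Continuous.prodMk (Continuous.subtype_mk (continuous_pi fun i => ?_) _)
    (Continuous.subtype_mk (continuous_pi fun i => ?_) _)
  · fin_cases i
    · show Continuous fun t : Icc (0 : ℝ) 5 => X0 t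
      unfold X0; fun_prop
    · show Continuous fun t : Icc (0 : ℝ) 5 => X1 t
      unfold X1; fun_prop
    · show Continuous fun t : Icc (0 : ℝ) 5 => X2 t
      unfold X2; fun_prop
  · fin_cases i
    · show Continuous fun t : Icc (0 : ℝ) 5 => Y0 t
      unfold Y0; fun_prop
    · exact continuous_const
    · show Continuous fun t : Icc (0 : ℝ) 5 => Y2 t
      unfold Y2; fun_prop

def K : Set (T × T) := range g

instance : ConnectedSpace (Icc (0 : ℝ) 5) :=
  isConnected_iff_connectedSpace.1 (isConnected_Icc (by norm_num))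

theorem K_compact : IsCompact K := isCompact_range g_cont

theorem K_connected : IsConnected K := isConnected_range g_cont

theorem coord_fst (t : Icc (0 : ℝ) 5) :
    (g t).1.1 0 = X0 t ∧ (g t).1.1 1 = X1 t ∧ (g t).1.1 2 = X2 t := ⟨rfl, rfl, rfl⟩

theorem coord_snd (t : Icc (0 : ℝ) 5) :
    (g t).2.1 0 = Y0 t ∧ (g t).2.1 1 = 0 ∧ (g t).2.1 2 = Y2 t := ⟨rfl, rfl, rfl⟩

theorem K_diag (z : T) : (z, z) ∉ K := by
  rintro ⟨t, h⟩
  have h1 : (g t).1 = (g t).2 := by rw [h]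
  obtain ⟨a0, a1, a2⟩ := coord_fst t
  obtain ⟨b0, b1, b2⟩ := coord_snd t
  rw [h1, b0] at a0
  rw [h1, b1] at a1
  rw [h1, b2] at a2
  rcases cases5 t.2 with ⟨⟨a, b⟩, e1, e2, e3, e4, e5⟩ | ⟨⟨a, b⟩, e1, e2, e3, e4, e5⟩ |
    ⟨⟨a, b⟩, e1, e2, e3, e4, e5⟩ | ⟨⟨a, b⟩, e1, e2, e3, e4, e5⟩ | ⟨⟨a, b⟩, e1, e2, e3, e4, e5⟩ <;>
  linarith

theorem K_swap (z w : T) (h : (z, w) ∈ K) : (w, z) ∉ K := by
  obtain ⟨t, ht⟩ := h
  rintro ⟨s, hs⟩
  have h1 : (g t).1 = (g s).2 := by rw [ht, hs]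
  have h2 : (g t).2 = (g s).1 := by rw [ht, hs]
  obtain ⟨a0, a1, a2⟩ := coord_fst t
  obtain ⟨b0, b1, b2⟩ := coord_snd s
  rw [h1, b0] at a0
  rw [h1, b1] at a1
  rw [h1, b2] at a2
  obtain ⟨c0, c1, c2⟩ := coord_fst s
  obtain ⟨d0, d1, d2⟩ := coord_snd t
  rw [← h2, d0] at c0
  rw [← h2, d1] at c1
  rw [← h2, d2] at c2
  clear b0 b1 b2 d0 d1 d2 h1 h2 ht hs
  rcases cases5 t.2 with ⟨⟨a, b⟩, e1, e2, e3, e4, e5⟩ | ⟨⟨a, b⟩, e1, e2, e3, e4, e5⟩ |
    ⟨⟨a, b⟩, e1, e2, e3, e4, e5⟩ | ⟨⟨a, b⟩, e1, e2, e3, e4, e5⟩ | ⟨⟨a, b⟩, e1, e2, e3, e4, e5⟩ <;>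
  rcases cases5 s.2 with ⟨⟨a', b'⟩, f1, f2, f3, f4, f5⟩ | ⟨⟨a', b'⟩, f1, f2, f3, f4, f5⟩ |
    ⟨⟨a', b'⟩, f1, f2, f3, f4, f5⟩ | ⟨⟨a', b'⟩, f1, f2, f3, f4, f5⟩ |
    ⟨⟨a', b'⟩, f1, f2, f3, f4, f5⟩ <;>
  linarith

theorem K_fst : Prod.fst '' K = univ := by
  apply eq_univ_of_forall
  rintro ⟨v, hv⟩
  obtain ⟨h0, h1, h01, h02, h12⟩ := hv
  have key : ∃ t : Icc (0 : ℝ) 5, X0 t = v 0 ∧ X1 t = v 1 ∧ X2 t = v 2 := by
    by_cases ha : v 0 = 0
    · by_cases hb : v 1 = 0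
      · have hm : 4 + v 2 ∈ Icc (0 : ℝ) 5 := ⟨by linarith [h0 2], by linarith [h1 2]⟩
        refine ⟨⟨4 + v 2, hm⟩, ?_⟩
        simp only [X0, X1, X2]
        rw [max_eq_left (by linarith [h0 2]), ha, hb,
          abs_of_nonneg (by linarith [h0 2]), max_eq_left (by linarith [h0 2]),
          max_eq_right (by linarith [h0 2])]
        refine ⟨rfl, rfl, by ring⟩
      · have hc : v 2 = 0 := by
          rcases mul_eq_zero.1 h12 with h | h
          · exact absurd h hb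
          · exact h
        have hm : 2 + v 1 ∈ Icc (0 : ℝ) 5 := ⟨by linarith [h0 1], by linarith [h1 1]⟩
        refine ⟨⟨2 + v 1, hm⟩, ?_⟩
        simp only [X0, X1, X2]
        rw [max_eq_left (by linarith [h0 1]), ha, hc,
          abs_of_nonpos (by linarith [h1 1]), max_eq_right (by linarith [h0 1]),
          max_eq_left (by linarith [h1 1])]
        refine ⟨rfl, by ring, rfl⟩
    · have hb : v 1 = 0 := by
        rcases mul_eq_zero.1 h01 with h | h
        · exact absurd h ha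
        · exact h
      have hc : v 2 = 0 := by
        rcases mul_eq_zero.1 h02 with h | h
        · exact absurd h ha
        · exact h
      have hm : 2 - 2 * v 0 ∈ Icc (0 : ℝ) 5 := ⟨by linarith [h1 0], by linarith [h0 0]⟩
      refine ⟨⟨2 - 2 * v 0, hm⟩, ?_⟩
      simp only [X0, X1, X2]
      rw [hb, hc, max_eq_right (by linarith [h0 0]), abs_of_nonpos (by linarith [h0 0]),
        max_eq_left (by linarith [h0 0]), max_eq_left (by linarith [h0 0])]
      refine ⟨by ring, rfl, rfl⟩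
  obtain ⟨t, k0, k1, k2⟩ := key
  refine ⟨g t, ⟨t, rfl⟩, ?_⟩
  apply Subtype.ext
  funext i
  fin_cases i
  · exact k0
  · exact k1
  · exact k2

/-- pairs whose second coordinate is not the tip of the second leg -/
def O : Set (T × T) := {p | p.2.1 1 < 1}

theorem O_open : IsOpen O := by
  apply isOpen_lt _ continuous_const
  exact (continuous_apply 1).comp (continuous_subtype_val.comp continuous_snd)

theorem K_sub : K ⊆ O := by
  rintro _ ⟨t, rfl⟩
  show (g t).2.1 1 < 1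
  rw [(coord_snd t).2.1]
  norm_num

def tip : T := ⟨![0, 1, 0], by
  refine ⟨?_, ?_, by simp, by simp, by simp⟩ <;> intro i <;> fin_cases i <;> simp⟩

/-- The metric on the simple triod. -/
theorem exists_triod : ∃ (Y : Type) (_ : MetricSpace Y) (_ : T ≃ₜ Y) (ε₀ : ℝ),
    0 ≤ ε₀ ∧ ε₀ < 1 ∧ (∀ a b : Y, dist a b ≤ 1) ∧
    (∃ Z : Set (Y × Y), IsConnected Z ∧ Prod.fst '' Z = univ ∧ ∀ p ∈ Z, 1 ≤ dist p.1 p.2) ∧
    (∀ Z : Set (Y × Y), IsConnected Z → Prod.fst '' Z = univ → Prod.snd '' Z = univ →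
      ∃ p ∈ Z, dist p.1 p.2 ≤ ε₀) := by
  obtain ⟨Y, m, e, L, ε₀, hL, h0, h1, h2, h3, h4, h5⟩ := Q172.SpanMetric.exists_metric K_compact
    K_connected.nonempty K_diag K_swap O_open K_sub
  refine ⟨Y, m, e, ε₀, by linarith, by linarith, ?_, ?_, ?_⟩
  · intro a b
    have := h2 (e.symm a) (e.symm b)
    rwa [e.apply_symm_apply, e.apply_symm_apply] at this
  · refine ⟨Prod.map e e '' K, ?_, ?_, ?_⟩
    · exact K_connected.image _ (e.continuous.prodMap e.continuous).continuousOn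
    · apply eq_univ_of_forall
      intro y
      obtain ⟨p, hp, hpy⟩ : e.symm y ∈ Prod.fst '' K := by rw [K_fst]; trivial
      refine ⟨Prod.map e e p, ⟨p, hp, rfl⟩, ?_⟩
      show e p.1 = y
      rw [hpy, e.apply_symm_apply]
    · rintro _ ⟨p, hp, rfl⟩
      exact (h4 p.1 p.2 hp).ge
  · intro Z hZ hf hs
    by_contra hcon
    push Not at hcon
    set Z' : Set (T × T) := Prod.map e.symm e.symm '' Z with hZ'
    have hZ'c : IsConnected Z' :=
      hZ.image _ (e.symm.continuous.prodMap e.symm.continuous).continuousOn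
    have hd : ∀ p ∈ Z', ε₀ < dist (e p.1) (e p.2) := by
      rintro _ ⟨q, hq, rfl⟩
      have := hcon q hq
      simpa using this
    rcases h5 Z' hZ'c.isPreconnected hd with h | h
    · obtain ⟨q, hq, hqe⟩ : e tip ∈ Prod.snd '' Z := by rw [hs]; trivial
      have h6 : (Prod.map e.symm e.symm q).2.1 1 < 1 := h ⟨q, hq, rfl⟩
      have h7 : (Prod.map e.symm e.symm q).2 = tip := by
        show e.symm q.2 = tip
        rw [hqe, e.symm_apply_apply]
      rw [h7] at h6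
      exact absurd h6 (by simp [tip])
    · obtain ⟨q, hq, hqe⟩ : e tip ∈ Prod.fst '' Z := by rw [hf]; trivial
      have h6 : (Prod.map e.symm e.symm q).1.1 1 < 1 := h ⟨q, hq, rfl⟩
      have h7 : (Prod.map e.symm e.symm q).1 = tip := by
        show e.symm q.1 = tip
        rw [hqe, e.symm_apply_apply]
      rw [h7] at h6
      exact absurd h6 (by simp [tip])

/-- the legs of the model -/
def leg (i : Fin 3) (t : unitInterval) : T :=
  ⟨Pi.single i (t : ℝ), by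
    refine ⟨?_, ?_, ?_, ?_, ?_⟩
    · intro j
      by_cases h : j = i
      · subst h; rw [Pi.single_eq_same]; exact t.2.1
      · rw [Pi.single_eq_of_ne h]
    · intro j
      by_cases h : j = i
      · subst h; rw [Pi.single_eq_same]; exact t.2.2
      · rw [Pi.single_eq_of_ne h]; exact zero_le_one
    all_goals fin_cases i <;> simp [Pi.single_apply]⟩

theorem leg_cont (i : Fin 3) : Continuous (leg i) := by
  refine Continuous.subtype_mk ?_ _
  exact (continuous_single i).comp continuous_subtype_val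

theorem leg_inj (i : Fin 3) : Function.Injective (leg i) := by
  intro s t h
  have h1 : (leg i s).1 i = (leg i t).1 i := by rw [h]
  simp only [leg, Pi.single_eq_same] at h1
  exact Subtype.ext h1

theorem leg_zero (i j : Fin 3) : leg i 0 = leg j 0 := by
  apply Subtype.ext
  simp [leg]

theorem leg_meet {i j : Fin 3} (hij : i ≠ j) {s t : unitInterval} (h : leg i s = leg j t) :
    s = 0 := by
  have h1 : (leg i s).1 i = (leg j t).1 i := by rw [h]
  simp only [leg, Pi.single_eq_same, Pi.single_eq_of_ne hij] at h1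
  exact Subtype.ext h1

theorem leg_cover (v : T) : ∃ i t, leg i t = v := by
  obtain ⟨v, h0, h1, h01, h02, h12⟩ := v
  by_cases ha : v 0 = 0
  · by_cases hb : v 1 = 0
    · refine ⟨2, ⟨v 2, h0 2, h1 2⟩, ?_⟩
      apply Subtype.ext
      funext i
      fin_cases i <;> simp [leg, ha, hb, Pi.single_apply]
    · have hc : v 2 = 0 := by
        rcases mul_eq_zero.1 h12 with h | h
        · exact absurd h hb
        · exact h
      refine ⟨1, ⟨v 1, h0 1, h1 1⟩, ?_⟩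
      apply Subtype.ext
      funext i
      fin_cases i <;> simp [leg, ha, hc, Pi.single_apply]
  · have hb : v 1 = 0 := by
      rcases mul_eq_zero.1 h01 with h | h
      · exact absurd h ha
      · exact h
    have hc : v 2 = 0 := by
      rcases mul_eq_zero.1 h02 with h | h
      · exact absurd h ha
      · exact h
    refine ⟨0, ⟨v 0, h0 0, h1 0⟩, ?_⟩
    apply Subtype.ext
    funext i
    fin_cases i <;> simp [leg, hb, hc, Pi.single_apply]

end Q172.SpanTriod
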