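import Mathlib

set_option autoImplicit false

open Set Topology

noncomputable section

namespace Q172.UnifPaths

/-! ### Lipschitz paths -/

section lip

variable {X : Type} [MetricSpace X]

theorem lip_trans {K : NNReal} {u v w : X} {p : Path u v} {q : Path v w} (hp : LipschitzWith K p)
    (hq : LipschitzWith K q) : LipschitzWith (2 * K) (p.trans q) := by
  have key : ∀ s t : unitInterval, s ≤ t → dist ((p.trans q) s) ((p.trans q) t) ≤
      2 * K * (t - s) := by
    intro s t hst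
    have hst' : (s : ℝ) ≤ t := hst
    have hK : (0 : ℝ) ≤ K := K.2
    rw [Path.trans_apply, Path.trans_apply]
    split_ifs with h1 h2 h2
    · refine (hp.dist_le_mul _ _).trans (le_of_eq ?_)
      rw [Subtype.dist_eq, Real.dist_eq]
      show (K : ℝ) * |2 * (s : ℝ) - 2 * t| = _
      rw [abs_of_nonpos (by linarith)]
      ring
    · have e1 : dist (p ⟨2 * (s : ℝ), (unitInterval.mul_pos_mem_iff zero_lt_two).2 ⟨s.2.1, h1⟩⟩) v
          ≤ K * (1 - 2 * s) := by
        have := hp.dist_le_mul ⟨2 * (s : ℝ), (unitInterval.mul_pos_mem_iff zero_lt_two).2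
          ⟨s.2.1, h1⟩⟩ 1
        rw [p.target] at this
        refine this.trans (le_of_eq ?_)
        rw [Subtype.dist_eq, Real.dist_eq]
        show (K : ℝ) * |2 * (s : ℝ) - 1| = _
        rw [abs_of_nonpos (by linarith)]
        ring
      have e2 : dist v (q ⟨2 * (t : ℝ) - 1, unitInterval.two_mul_sub_one_mem_iff.2
          ⟨(not_le.1 h2).le, t.2.2⟩⟩) ≤ K * (2 * t - 1) := by
        have := hq.dist_le_mul 0 ⟨2 * (t : ℝ) - 1, unitInterval.two_mul_sub_one_mem_iff.2
          ⟨(not_le.1 h2).le, t.2.2⟩⟩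
        rw [q.source] at this
        refine this.trans (le_of_eq ?_)
        rw [Subtype.dist_eq, Real.dist_eq]
        show (K : ℝ) * |0 - (2 * (t : ℝ) - 1)| = _
        rw [abs_of_nonpos (by linarith)]
        ring
      refine (dist_triangle _ v _).trans ((add_le_add e1 e2).trans (le_of_eq ?_))
      ring
    · exact absurd (hst'.trans h2) h1
    · refine (hq.dist_le_mul _ _).trans (le_of_eq ?_)
      rw [Subtype.dist_eq, Real.dist_eq]
      show (K : ℝ) * |2 * (s : ℝ) - 1 - (2 * t - 1)| = _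
      rw [abs_of_nonpos (by linarith)]
      ring
  apply LipschitzWith.of_dist_le_mul
  intro s t
  rw [Subtype.dist_eq s t, Real.dist_eq]
  push_cast
  rcases le_total s t with h | h
  · have h' : (s : ℝ) ≤ t := h
    rw [abs_of_nonpos (by linarith)]
    refine (key s t h).trans (le_of_eq ?_)
    ring
  · have h' : (t : ℝ) ≤ s := h
    rw [dist_comm, abs_of_nonneg (by linarith)]
    exact key t s h

theorem lip_symm {K : NNReal} {u v : X} {p : Path u v} (hp : LipschitzWith K p) :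
    LipschitzWith K p.symm := by
  apply LipschitzWith.of_dist_le_mul
  intro s t
  refine (hp.dist_le_mul _ _).trans (le_of_eq ?_)
  rw [Subtype.dist_eq, Subtype.dist_eq, Real.dist_eq, Real.dist_eq, unitInterval.coe_symm_eq,
    unitInterval.coe_symm_eq]
  congr 1
  rw [show (1 - (s : ℝ) - (1 - t)) = -(s - t) by ring, abs_neg]

theorem lip_uniform (K : NNReal) {u v : X} {ε : ℝ} (hε : 0 < ε) :
    ∃ n : ℕ, ∀ p : Path u v, LipschitzWith K p → ∃ t : Fin (n + 1) → unitInterval,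
      t 0 = 0 ∧ t (Fin.last n) = 1 ∧ StrictMono t ∧
      ∀ i : Fin n, Metric.diam (⇑p '' Set.Icc (t i.castSucc) (t i.succ)) ≤ ε := by
  obtain ⟨n, hn⟩ := exists_nat_gt ((K : ℝ) / ε)
  refine ⟨n + 1, fun p hp => ?_⟩
  have hn1 : (0 : ℝ) < (n : ℝ) + 1 := by positivity
  refine ⟨fun i => ⟨(i : ℝ) / ((n : ℝ) + 1), by positivity, ?_⟩, ?_, ?_, ?_, ?_⟩
  · rw [div_le_one hn1]
    have := i.2
    have h2 : (i : ℕ) ≤ n + 1 := by omega
    exact_mod_cast h2
  · apply Subtype.ext
    simp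
  · apply Subtype.ext
    show (((Fin.last (n + 1) : Fin (n + 1 + 1)) : ℕ) : ℝ) / ((n : ℝ) + 1) = 1
    rw [Fin.val_last]
    push_cast
    exact div_self hn1.ne'
  · intro i j hij
    show (i : ℝ) / ((n : ℝ) + 1) < (j : ℝ) / ((n : ℝ) + 1)
    apply div_lt_div_of_pos_right _ hn1
    exact_mod_cast hij
  · intro i
    apply Metric.diam_le_of_forall_dist_le hε.le
    rintro _ ⟨x, ⟨hx1, hx2⟩, rfl⟩ _ ⟨y, ⟨hy1, hy2⟩, rfl⟩
    refine (hp.dist_le_mul x y).trans ?_
    have hx1' : ((i : ℕ) : ℝ) / ((n : ℝ) + 1) ≤ x := by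
      have : ((i.castSucc : Fin (n + 1 + 1)) : ℝ) / ((n : ℝ) + 1) ≤ x := hx1
      simpa using this
    have hx2' : (x : ℝ) ≤ (((i : ℕ) : ℝ) + 1) / ((n : ℝ) + 1) := by
      have : (x : ℝ) ≤ ((i.succ : Fin (n + 1 + 1)) : ℝ) / ((n : ℝ) + 1) := hx2
      simpa using this
    have hy1' : ((i : ℕ) : ℝ) / ((n : ℝ) + 1) ≤ y := by
      have : ((i.castSucc : Fin (n + 1 + 1)) : ℝ) / ((n : ℝ) + 1) ≤ y := hy1
      simpa using this
    have hy2' : (y : ℝ) ≤ (((i : ℕ) : ℝ) + 1) / ((n : ℝ) + 1) := by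
      have : (y : ℝ) ≤ ((i.succ : Fin (n + 1 + 1)) : ℝ) / ((n : ℝ) + 1) := hy2
      simpa using this
    have hd : dist x y ≤ 1 / ((n : ℝ) + 1) := by
      rw [Subtype.dist_eq, Real.dist_eq, abs_le]
      rw [add_div] at hx2' hy2'
      constructor <;> linarith
    have hK : (0 : ℝ) ≤ K := K.2
    calc (K : ℝ) * dist x y ≤ K * (1 / ((n : ℝ) + 1)) := by gcongr
      _ = K / ((n : ℝ) + 1) := by ring
      _ ≤ ε := by
        rw [div_le_iff₀ hn1]
        rw [div_lt_iff₀ hε] at hn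
        nlinarith

/-- An explicit path in a subset. -/
theorem mk_path {E : Type} [MetricSpace E] {Z : Set E} {u v : Z} (f : ℝ → E) (K : NNReal)
    (hf : ∀ s ∈ Icc (0 : ℝ) 1, ∀ t ∈ Icc (0 : ℝ) 1, dist (f s) (f t) ≤ K * |s - t|)
    (hmem : ∀ t ∈ Icc (0 : ℝ) 1, f t ∈ Z) (h0 : f 0 = u) (h1 : f 1 = v) :
    ∃ p : Path u v, LipschitzWith K p ∧ ∀ t : unitInterval, (p t).1 = f t := by
  have hl : LipschitzWith K (fun t : unitInterval => (⟨f t, hmem t t.2⟩ : Z)) := by
    apply LipschitzWith.of_dist_le_mul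
    intro s t
    exact hf s s.2 t t.2
  refine ⟨⟨⟨_, hl.continuous⟩, ?_, ?_⟩, hl, fun t => rfl⟩
  · exact Subtype.ext h0
  · exact Subtype.ext h1

end lip

/-! ### The space -/

def a (n : ℕ) : ℝ := 1 / ((n : ℝ) + 1)

def N (n : ℕ) : ℝ := 2 * n + 1

def w (θ : ℝ) : ℝ := (1 - Real.cos (θ * Real.pi)) / 2

def s (n k : ℕ) : ℝ := (2 * k + 1) / N n

def zig (n : ℕ) (θ : ℝ) : ℝ × ℝ × ℝ :=
  (a n * (θ / N n), a n * (a n * (θ / N n)), (1 + a n * (θ / N n) ^ 2) * w θ)

def con (n k : ℕ) (τ : ℝ) : ℝ × ℝ × ℝ :=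
  (a n * (τ * s n k), a n * (a n * (τ * s n k)), 1 + a n * (τ * s n k ^ 2))

def bar (h : ℝ) : ℝ × ℝ × ℝ := (0, 0, h)

def P (n : ℕ) : Set (ℝ × ℝ × ℝ) := zig n '' Icc 0 (N n) ∪ ⋃ k ∈ Iic n, con n k '' Icc 0 1

def J : Set (ℝ × ℝ × ℝ) := bar '' Icc 0 1

def Z : Set (ℝ × ℝ × ℝ) := J ∪ ⋃ n, P n

theorem a_pos (n : ℕ) : 0 < a n := by unfold a; positivity

theorem a_le (n : ℕ) : a n ≤ 1 := by
  unfold a
  rw [div_le_one (by positivity)]
  have : (0 : ℝ) ≤ n := Nat.cast_nonneg n
  linarith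

theorem a_mono {m n : ℕ} (h : m ≤ n) : a n ≤ a m := by
  unfold a
  apply one_div_le_one_div_of_le (by positivity)
  have : (m : ℝ) ≤ n := by exact_mod_cast h
  linarith

theorem N_pos (n : ℕ) : 0 < N n := by unfold N; positivity

theorem one_le_N (n : ℕ) : 1 ≤ N n := by
  unfold N
  have : (0 : ℝ) ≤ n := Nat.cast_nonneg n
  linarith

theorem s_pos (n k : ℕ) : 0 < s n k := div_pos (by positivity) (N_pos n)

theorem s_le {n k : ℕ} (h : k ≤ n) : s n k ≤ 1 := by
  unfold s
  rw [div_le_one (N_pos n)]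
  unfold N
  have : (k : ℝ) ≤ n := by exact_mod_cast h
  linarith

theorem w_nonneg (θ : ℝ) : 0 ≤ w θ := by
  unfold w
  linarith [Real.cos_le_one (θ * Real.pi)]

theorem w_le (θ : ℝ) : w θ ≤ 1 := by
  unfold w
  linarith [Real.neg_one_le_cos (θ * Real.pi)]

theorem w_even (k : ℕ) : w (2 * k) = 0 := by
  unfold w
  have : (2 * (k : ℝ)) * Real.pi = k * (2 * Real.pi) := by ring
  rw [this, Real.cos_nat_mul_two_pi]
  norm_num

theorem w_odd (k : ℕ) : w (2 * k + 1) = 1 := by
  unfold w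
  have : (2 * (k : ℝ) + 1) * Real.pi = k * (2 * Real.pi) + Real.pi := by ring
  rw [this, Real.cos_add_pi, Real.cos_nat_mul_two_pi]
  norm_num

theorem w_lip (θ θ' : ℝ) : |w θ - w θ'| ≤ 2 * |θ - θ'| := by
  unfold w
  have h := Real.lipschitzWith_cos.dist_le_mul (θ * Real.pi) (θ' * Real.pi)
  rw [Real.dist_eq, Real.dist_eq] at h
  have e : (1 - Real.cos (θ * Real.pi)) / 2 - (1 - Real.cos (θ' * Real.pi)) / 2 =
      -(Real.cos (θ * Real.pi) - Real.cos (θ' * Real.pi)) / 2 := by ring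
  rw [e, abs_div, abs_neg, abs_two]
  have e2 : θ * Real.pi - θ' * Real.pi = (θ - θ') * Real.pi := by ring
  rw [e2, abs_mul, abs_of_pos Real.pi_pos] at h
  have h4 := Real.pi_le_four
  have h5 := abs_nonneg (θ - θ')
  push_cast at h
  nlinarith

theorem w_cont : Continuous w := by unfold w; fun_prop

theorem zig_cont (n : ℕ) : Continuous (zig n) := by
  unfold zig
  have := w_cont
  fun_prop

theorem con_cont (n k : ℕ) : Continuous (con n k) := by
  unfold con
  fun_prop

theorem bar_cont : Continuous bar := by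
  unfold bar
  fun_prop

theorem zig_odd (n k : ℕ) : zig n (2 * k + 1) = con n k 1 := by
  unfold zig con
  rw [w_odd, one_mul, mul_one]
  have : (2 * (k : ℝ) + 1) / N n = s n k := rfl
  rw [this, one_mul]

theorem P_compact (n : ℕ) : IsCompact (P n) := by
  unfold P
  refine (isCompact_Icc.image (zig_cont n)).union ?_
  exact (finite_Iic n).isCompact_biUnion fun k _ => isCompact_Icc.image (con_cont n k)

def C (n : ℕ) : Set (ℝ × ℝ × ℝ) := Icc 0 (a n) ×ˢ (Icc 0 (a n) ×ˢ Icc 0 (1 + a n))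

theorem P_sub {m n : ℕ} (h : m ≤ n) : P n ⊆ C m := by
  have ha := a_pos n
  have ha1 := a_le n
  have ham := a_mono h
  have key : ∀ r y z : ℝ, 0 ≤ r → r ≤ 1 → y = a n * (a n * r) → 0 ≤ z → z ≤ 1 + a n →
      ((a n * r, y, z) : ℝ × ℝ × ℝ) ∈ C m := by
    intro r y z h0 h1 hy hz0 hz1
    have h2 : a n * r ≤ a n := by nlinarith
    have h3 : 0 ≤ a n * r := by positivity
    refine ⟨⟨h3, h2.trans ham⟩, ⟨?_, ?_⟩, ⟨hz0, hz1.trans (by linarith)⟩⟩
    · rw [hy]; positivity
    · rw [hy]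
      show a n * (a n * r) ≤ a m
      nlinarith
  rintro _ (⟨θ, hθ, rfl⟩ | hk)
  · have h0 : 0 ≤ θ / N n := div_nonneg hθ.1 (N_pos n).le
    have h1 : θ / N n ≤ 1 := (div_le_one (N_pos n)).2 hθ.2
    refine key _ _ _ h0 h1 rfl ?_ ?_
    · exact mul_nonneg (by positivity) (w_nonneg θ)
    · have h2 : (θ / N n) ^ 2 ≤ 1 := by nlinarith
      have h3 : 1 + a n * (θ / N n) ^ 2 ≤ 1 + a n := by nlinarith
      have h4 : 0 ≤ 1 + a n * (θ / N n) ^ 2 := by positivity
      nlinarith [w_nonneg θ, w_le θ]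
  · simp only [mem_iUnion, mem_Iic] at hk
    obtain ⟨k, hk, τ, hτ, rfl⟩ := hk
    have hs := s_pos n k
    have hs1 := s_le hk
    have h0 : 0 ≤ τ * s n k := mul_nonneg hτ.1 hs.le
    have h1 : τ * s n k ≤ 1 := by nlinarith [hτ.1, hτ.2]
    refine key _ _ _ h0 h1 rfl ?_ ?_
    · have := hτ.1
      positivity
    · have h2 : τ * s n k ^ 2 ≤ 1 := by
        have : s n k ^ 2 ≤ 1 := by nlinarith
        nlinarith [hτ.1, hτ.2]
      nlinarith

theorem Z_eq : Z = ⋂ m, (J ∪ (⋃ n ∈ Iio m, P n) ∪ C m) := by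
  ext z
  constructor
  · rintro (h | h)
    · exact mem_iInter.2 fun m => Or.inl (Or.inl h)
    · obtain ⟨n, hn⟩ := mem_iUnion.1 h
      refine mem_iInter.2 fun m => ?_
      rcases lt_or_ge n m with hnm | hnm
      · exact Or.inl (Or.inr (mem_biUnion (mem_Iio.2 hnm) hn))
      · exact Or.inr (P_sub hnm hn)
  · intro h
    rw [mem_iInter] at h
    by_contra hcon
    have hC : ∀ m, z ∈ C m := by
      intro m
      rcases h m with (h1 | h1) | h1
      · exact absurd (Or.inl h1) hcon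
      · simp only [mem_iUnion, mem_Iio] at h1
        obtain ⟨n, -, hn⟩ := h1
        exact absurd (Or.inr (mem_iUnion.2 ⟨n, hn⟩)) hcon
      · exact h1
    obtain ⟨x, y, t⟩ := z
    have hlim : ∀ r : ℝ, (∀ m : ℕ, r ≤ a m) → r ≤ 0 := by
      intro r hr
      by_contra hr0
      push Not at hr0
      obtain ⟨m, hm⟩ := exists_nat_one_div_lt hr0
      exact absurd (hr m) (not_le.2 hm)
    have hx : x = 0 := le_antisymm (hlim x fun m => (hC m).1.2) (hC 0).1.1
    have hy : y = 0 := le_antisymm (hlim y fun m => (hC m).2.1.2) (hC 0).2.1.1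
    have ht : t ≤ 1 := by
      have := hlim (t - 1) fun m => by
        have h1 : t ≤ 1 + a m := (hC m).2.2.2
        linarith
      linarith
    have ht0 : 0 ≤ t := (hC 0).2.2.1
    apply hcon
    left
    exact ⟨t, ⟨ht0, ht⟩, by rw [hx, hy]; rfl⟩

theorem Z_compact : IsCompact Z := by
  have hc : IsClosed Z := by
    rw [Z_eq]
    refine isClosed_iInter fun m => IsClosed.union (IsClosed.union ?_ ?_) ?_
    · exact (isCompact_Icc.image bar_cont).isClosed
    · exact ((finite_Iio m).isCompact_biUnion fun n _ => P_compact n).isClosed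
    · exact isClosed_Icc.prod (isClosed_Icc.prod isClosed_Icc)
  have hsub : Z ⊆ C 0 := by
    rintro z (⟨t, ht, rfl⟩ | h)
    · have := a_pos 0
      exact ⟨⟨le_rfl, this.le⟩, ⟨le_rfl, this.le⟩, ⟨ht.1, ht.2.trans (by linarith)⟩⟩
    · obtain ⟨n, hn⟩ := mem_iUnion.1 h
      exact P_sub (Nat.zero_le n) hn
  exact (isCompact_Icc.prod (isCompact_Icc.prod isCompact_Icc)).of_isClosed_subset hc hsub

instance : CompactSpace Z := isCompact_iff_compactSpace.1 Z_compact

theorem zig_mem {n : ℕ} {θ : ℝ} (h : θ ∈ Icc 0 (N n)) : zig n θ ∈ Z :=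
  Or.inr (mem_iUnion.2 ⟨n, Or.inl ⟨θ, h, rfl⟩⟩)

theorem con_mem {n k : ℕ} (hk : k ≤ n) {τ : ℝ} (h : τ ∈ Icc (0 : ℝ) 1) : con n k τ ∈ Z :=
  Or.inr (mem_iUnion.2 ⟨n, Or.inr (mem_biUnion (mem_Iic.2 hk) ⟨τ, h, rfl⟩)⟩)

theorem bar_mem {h : ℝ} (hh : h ∈ Icc (0 : ℝ) 1) : bar h ∈ Z := Or.inl ⟨h, hh, rfl⟩

def c : Z := ⟨bar 1, bar_mem ⟨zero_le_one, le_rfl⟩⟩
def b : Z := ⟨bar 0, bar_mem ⟨le_rfl, zero_le_one⟩⟩

theorem con_zero (n k : ℕ) : con n k 0 = bar 1 := by simp [con, bar]

theorem zig_zero (n : ℕ) : zig n 0 = bar 0 := by simp [zig, bar, w]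

theorem con_lip {n k : ℕ} (hk : k ≤ n) (σ τ : ℝ) : dist (con n k σ) (con n k τ) ≤ |σ - τ| := by
  have ha := a_pos n
  have ha1 := a_le n
  have hs := s_pos n k
  have hs1 := s_le hk
  have hd := abs_nonneg (σ - τ)
  have e0 : a n * s n k ≤ 1 := by nlinarith
  have e0' : 0 ≤ a n * s n k := by positivity
  have e1 : |a n * (σ * s n k) - a n * (τ * s n k)| ≤ |σ - τ| := by
    have : a n * (σ * s n k) - a n * (τ * s n k) = (a n * s n k) * (σ - τ) := by ring
    rw [this, abs_mul, abs_of_nonneg e0']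
    nlinarith
  have e2 : |a n * (a n * (σ * s n k)) - a n * (a n * (τ * s n k))| ≤ |σ - τ| := by
    have : a n * (a n * (σ * s n k)) - a n * (a n * (τ * s n k)) =
        (a n * (a n * s n k)) * (σ - τ) := by ring
    rw [this, abs_mul, abs_of_nonneg (by positivity)]
    have : a n * (a n * s n k) ≤ 1 := by nlinarith
    nlinarith
  have e3 : |1 + a n * (σ * s n k ^ 2) - (1 + a n * (τ * s n k ^ 2))| ≤ |σ - τ| := by
    have : 1 + a n * (σ * s n k ^ 2) - (1 + a n * (τ * s n k ^ 2)) =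
        (a n * s n k * s n k) * (σ - τ) := by ring
    rw [this, abs_mul, abs_of_nonneg (by positivity)]
    have : a n * s n k * s n k ≤ 1 := by nlinarith
    nlinarith
  exact max_le e1 (max_le e2 e3)

theorem zig_lip {n : ℕ} {θ θ' : ℝ} (h : θ ∈ Icc 0 (N n)) (h' : θ' ∈ Icc 0 (N n)) :
    dist (zig n θ) (zig n θ') ≤ 6 * |θ - θ'| := by
  have ha := a_pos n
  have ha1 := a_le n
  have hN := N_pos n
  have hN1 := one_le_N n
  have hd := abs_nonneg (θ - θ')
  have hdiv : |θ / N n - θ' / N n| ≤ |θ - θ'| := by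
    rw [← sub_div, abs_div, abs_of_pos hN]
    exact div_le_self hd hN1
  have e1 : |a n * (θ / N n) - a n * (θ' / N n)| ≤ 6 * |θ - θ'| := by
    rw [← mul_sub, abs_mul, abs_of_pos ha]
    nlinarith [abs_nonneg (θ / N n - θ' / N n)]
  have e2 : |a n * (a n * (θ / N n)) - a n * (a n * (θ' / N n))| ≤ 6 * |θ - θ'| := by
    rw [← mul_sub, ← mul_sub, abs_mul, abs_mul, abs_of_pos ha]
    have h1 := abs_nonneg (θ / N n - θ' / N n)
    have h2 : a n * |θ / N n - θ' / N n| ≤ |θ - θ'| := by nlinarith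
    have h3 : 0 ≤ a n * |θ / N n - θ' / N n| := by positivity
    nlinarith
  have r0 : 0 ≤ θ / N n := div_nonneg h.1 hN.le
  have r1 : θ / N n ≤ 1 := (div_le_one hN).2 h.2
  have r0' : 0 ≤ θ' / N n := div_nonneg h'.1 hN.le
  have r1' : θ' / N n ≤ 1 := (div_le_one hN).2 h'.2
  have e3 : |(1 + a n * (θ / N n) ^ 2) * w θ - (1 + a n * (θ' / N n) ^ 2) * w θ'| ≤
      6 * |θ - θ'| := by
    set r := θ / N n
    set r' := θ' / N n
    have e : (1 + a n * r ^ 2) * w θ - (1 + a n * r' ^ 2) * w θ' =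
        (1 + a n * r ^ 2) * (w θ - w θ') + (a n * (r + r') * w θ') * (r - r') := by ring
    rw [e]
    refine (abs_add_le _ _).trans ?_
    rw [abs_mul, abs_mul (a n * (r + r') * w θ'), abs_of_nonneg (by positivity),
      abs_of_nonneg (a := a n * (r + r') * w θ') (by have := w_nonneg θ'; positivity)]
    have h1 : 1 + a n * r ^ 2 ≤ 2 := by
      have : r ^ 2 ≤ 1 := by nlinarith
      nlinarith
    have h2 : a n * (r + r') * w θ' ≤ 2 := by
      have h3 : r + r' ≤ 2 := by linarith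
      have h4 : a n * (r + r') ≤ 2 := by nlinarith
      have h5 : 0 ≤ a n * (r + r') := by positivity
      nlinarith [w_nonneg θ', w_le θ']
    have h3 := w_lip θ θ'
    have h4 : (1 + a n * r ^ 2) * |w θ - w θ'| ≤ 2 * (2 * |θ - θ'|) := by
      apply mul_le_mul h1 h3 (abs_nonneg _) (by norm_num)
    have h5 : a n * (r + r') * w θ' * |r - r'| ≤ 2 * |θ - θ'| := by
      apply mul_le_mul h2 hdiv (abs_nonneg _) (by norm_num)
    linarith
  exact max_le e1 (max_le e2 e3)

/-- Every point is joined to `c` by a Lipschitz path. -/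
theorem exists_lip (z : Z) : ∃ p : Path c z, LipschitzWith 12 p := by
  obtain ⟨z, hz⟩ := z
  rcases hz with ⟨h, hh, rfl⟩ | hz
  · obtain ⟨p, hp, -⟩ := mk_path (Z := Z) (u := c) (v := ⟨bar h, bar_mem hh⟩)
      (fun t => bar (1 - t * (1 - h))) 12 (by
        intro s hs t ht
        have : dist (bar (1 - s * (1 - h))) (bar (1 - t * (1 - h))) =
            |1 - s * (1 - h) - (1 - t * (1 - h))| := by
          simp only [bar, Prod.dist_eq, dist_self, Real.dist_eq]
          rw [max_eq_right (le_max_left _ _), max_eq_right (abs_nonneg _)]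
        rw [this]
        have e : 1 - s * (1 - h) - (1 - t * (1 - h)) = -((1 - h) * (s - t)) := by ring
        rw [e, abs_neg, abs_mul, abs_of_nonneg (by linarith [hh.2])]
        push_cast
        nlinarith [abs_nonneg (s - t), hh.1, hh.2])
      (by
        intro t ht
        apply bar_mem
        constructor
        · nlinarith [ht.1, ht.2, hh.1, hh.2]
        · nlinarith [ht.1, ht.2, hh.1, hh.2])
      (by simp [c]) (by simp)
    exact ⟨p, hp⟩
  · obtain ⟨n, hn⟩ := mem_iUnion.1 hz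
    rcases hn with ⟨θ, hθ, rfl⟩ | hn
    · set k := ⌊θ / 2⌋₊ with hk
      have h1 : (k : ℝ) ≤ θ / 2 := Nat.floor_le (by linarith [hθ.1])
      have h2 : θ / 2 < k + 1 := Nat.lt_floor_add_one _
      have hkn : k ≤ n := by
        by_contra hcon
        push Not at hcon
        have h3 : (n : ℝ) + 1 ≤ k := by exact_mod_cast hcon
        have h4 := hθ.2
        unfold N at h4
        linarith
      have hkn' : (k : ℝ) ≤ n := by exact_mod_cast hkn
      have hm : (2 * (k : ℝ) + 1) ∈ Icc 0 (N n) := by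
        constructor
        · positivity
        · unfold N; linarith
      have hmem : ∀ t ∈ Icc (0 : ℝ) 1, 2 * (k : ℝ) + 1 + t * (θ - (2 * k + 1)) ∈ Icc 0 (N n) := by
        intro t ht
        have : 2 * (k : ℝ) + 1 + t * (θ - (2 * k + 1)) = (1 - t) * (2 * k + 1) + t * θ := by ring
        rw [this]
        constructor
        · nlinarith [ht.1, ht.2, hm.1, hθ.1, mul_nonneg ht.1 hθ.1,
            mul_nonneg (sub_nonneg.2 ht.2) hm.1]
        · nlinarith [mul_nonneg ht.1 (sub_nonneg.2 hθ.2),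
            mul_nonneg (sub_nonneg.2 ht.2) (sub_nonneg.2 hm.2)]
      obtain ⟨p, hp, -⟩ := mk_path (Z := Z) (u := c) (v := ⟨zig n (2 * k + 1), zig_mem hm⟩)
        (con n k) 6 (by
          intro s _ t _
          refine (con_lip hkn s t).trans ?_
          push_cast
          nlinarith [abs_nonneg (s - t)])
        (fun t ht => con_mem hkn ht) (con_zero n k) (by rw [← zig_odd])
      obtain ⟨q, hq, -⟩ := mk_path (Z := Z) (u := ⟨zig n (2 * k + 1), zig_mem hm⟩)
        (v := ⟨zig n θ, zig_mem hθ⟩)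
        (fun t => zig n (2 * k + 1 + t * (θ - (2 * k + 1)))) 6 (by
          intro s hs t ht
          refine (zig_lip (hmem s hs) (hmem t ht)).trans ?_
          have e : 2 * (k : ℝ) + 1 + s * (θ - (2 * k + 1)) - (2 * k + 1 + t * (θ - (2 * k + 1))) =
            (θ - (2 * k + 1)) * (s - t) := by ring
          rw [e, abs_mul]
          have h5 : |θ - (2 * k + 1)| ≤ 1 := by
            rw [abs_le]; constructor <;> linarith
          push_cast
          nlinarith [abs_nonneg (s - t)])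
        (fun t ht => zig_mem (hmem t ht)) (by simp) (by simp)
      exact ⟨p.trans q, by
        have := lip_trans hp hq
        norm_num at this
        exact this⟩
    · simp only [mem_iUnion, mem_Iic] at hn
      obtain ⟨k, hk, τ, hτ, rfl⟩ := hn
      obtain ⟨p, hp, -⟩ := mk_path (Z := Z) (u := c) (v := ⟨con n k τ, con_mem hk hτ⟩)
        (fun t => con n k (t * τ)) 12 (by
          intro s hs t ht
          refine (con_lip hk _ _).trans ?_
          rw [← sub_mul, abs_mul, abs_of_nonneg hτ.1]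
          push_cast
          nlinarith [abs_nonneg (s - t), hτ.1, hτ.2])
        (by
          intro t ht
          apply con_mem hk
          exact ⟨mul_nonneg ht.1 hτ.1, mul_le_one₀ ht.2 hτ.1 hτ.2⟩)
        (by simp only [zero_mul]; exact con_zero n k) (by simp)
      exact ⟨p, hp⟩

theorem exists_lip2 (u v z : Z) : ∃ p : Path u v, LipschitzWith 48 p ∧ z ∈ range p := by
  obtain ⟨pu, hu⟩ := exists_lip u
  obtain ⟨pv, hv⟩ := exists_lip v
  obtain ⟨pz, hz⟩ := exists_lip z
  have h1 := lip_trans (lip_symm hu) hz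
  have h2 := lip_trans (lip_symm hz) hv
  have h3 := lip_trans h1 h2
  norm_num at h3
  refine ⟨_, h3, ?_⟩
  rw [Path.trans_range]
  left
  exact ⟨1, Path.target _⟩

instance : ConnectedSpace Z := by
  have : PathConnectedSpace Z := ⟨⟨c⟩, fun x y => by
    obtain ⟨p, -, -⟩ := exists_lip2 x y c
    exact ⟨p⟩⟩
  infer_instance

end Q172.UnifPaths
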