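import Mathlib
import Pool.Agent.Q172.UnifPaths

set_option autoImplicit false

open Set Topology

noncomputable section

namespace Q172.UnifPaths

/-- a linear function of the first two coordinates, positive on the `n`-th half plane only -/
def ρ (n : ℕ) (z : ℝ × ℝ × ℝ) : ℝ :=
  z.1 * (n + 1) - 2 * ((n : ℝ) + 1) ^ 2 * (n + 2) * |z.2.1 - a n * z.1|

def R (n : ℕ) (z : ℝ × ℝ × ℝ) : ℝ := max 0 (ρ n z)

/-- the position function -/
def G (n : ℕ) (z : ℝ × ℝ × ℝ) : ℝ := N n * max (R n z) (max 0 (z.2.2 - 1) / (a n * R n z))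

theorem ρ_cont (n : ℕ) : Continuous (ρ n) := by unfold ρ; fun_prop

theorem R_cont (n : ℕ) : Continuous (R n) := continuous_const.max (ρ_cont n)

theorem a_mul (n : ℕ) : a n * ((n : ℝ) + 1) = 1 := by
  unfold a
  field_simp

theorem ρ_same (n : ℕ) (r h : ℝ) : ρ n (a n * r, a n * (a n * r), h) = r := by
  unfold ρ
  have : a n * (a n * r) - a n * (a n * r) = 0 := sub_self _
  simp only [this, abs_zero, mul_zero, sub_zero]
  have := a_mul n
  calc a n * r * ((n : ℝ) + 1) = (a n * (n + 1)) * r := by ring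
    _ = r := by rw [this, one_mul]

theorem gap {m n : ℕ} (h : m ≠ n) : (1 : ℝ) ≤ |a m - a n| * (((n : ℝ) + 1) * (n + 2)) := by
  have e : a m - a n = ((n : ℝ) - m) / (((m : ℝ) + 1) * (n + 1)) := by
    unfold a
    field_simp
    ring
  rw [e, abs_div, abs_of_pos (a := ((m : ℝ) + 1) * (n + 1)) (by positivity), div_mul_eq_mul_div,
    le_div_iff₀ (by positivity), one_mul]
  have hn : (0 : ℝ) ≤ n := Nat.cast_nonneg n
  have hm : (0 : ℝ) ≤ m := Nat.cast_nonneg m
  rcases lt_or_gt_of_ne h with h | h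
  · have h1 : (m : ℝ) + 1 ≤ n := by exact_mod_cast h
    rw [abs_of_nonneg (by linarith)]
    have h3 : (m : ℝ) + 1 ≤ ((n : ℝ) - m) * (n + 2) := by nlinarith
    nlinarith [mul_le_mul_of_nonneg_right h3 (by positivity : (0 : ℝ) ≤ (n : ℝ) + 1)]
  · have h1 : (n : ℝ) + 1 ≤ m := by exact_mod_cast h
    rw [abs_of_nonpos (by linarith)]
    have h2 : 0 ≤ (m : ℝ) - n - 1 := by linarith
    nlinarith [mul_nonneg h2 hn, mul_nonneg h2 (by positivity : (0 : ℝ) ≤ (n : ℝ) + 1)]

theorem ρ_diff {m n : ℕ} (hmn : m ≠ n) {r : ℝ} (hr : 0 < r) (h : ℝ) :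
    ρ n (a m * r, a m * (a m * r), h) < 0 := by
  unfold ρ
  have hx : 0 < a m * r := mul_pos (a_pos m) hr
  have e : a m * (a m * r) - a n * (a m * r) = (a m - a n) * (a m * r) := by ring
  simp only [e]
  rw [abs_mul, abs_of_pos hx]
  have hg := gap hmn
  have hn : (0 : ℝ) ≤ n := Nat.cast_nonneg n
  have h1 : 2 * ((n : ℝ) + 1) ^ 2 * (n + 2) * (|a m - a n| * (a m * r)) =
      (2 * ((n : ℝ) + 1) * (a m * r)) * (|a m - a n| * (((n : ℝ) + 1) * (n + 2))) := by ring
  rw [h1]
  have h2 : 0 < 2 * ((n : ℝ) + 1) * (a m * r) := by positivity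
  nlinarith [mul_le_mul_of_nonneg_left hg h2.le]

theorem ρ_bar (n : ℕ) (h : ℝ) : ρ n (bar h) = 0 := by
  simp [ρ, bar]

/-- A convenient description of the points of the space. -/
theorem Z_cases {z : ℝ × ℝ × ℝ} (hz : z ∈ Z) :
    (∃ h ∈ Icc (0 : ℝ) 1, z = bar h) ∨
    ∃ m r h, 0 < r ∧ z = (a m * r, a m * (a m * r), h) ∧
      ((∃ θ ∈ Icc 0 (N m), r = θ / N m ∧ h = (1 + a m * r ^ 2) * w θ) ∨
        (∃ k ≤ m, ∃ τ ∈ Icc (0 : ℝ) 1, r = τ * s m k ∧ h = 1 + a m * (τ * s m k ^ 2))) := by
  rcases hz with ⟨h, hh, rfl⟩ | hz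
  · exact Or.inl ⟨h, hh, rfl⟩
  · obtain ⟨m, hm⟩ := mem_iUnion.1 hz
    rcases hm with ⟨θ, hθ, rfl⟩ | hm
    · rcases hθ.1.lt_or_eq with h0 | h0
      · right
        exact ⟨m, θ / N m, _, div_pos h0 (N_pos m), rfl, Or.inl ⟨θ, hθ, rfl, rfl⟩⟩
      · left
        rw [← h0]
        exact ⟨0, ⟨le_rfl, zero_le_one⟩, zig_zero m⟩
    · simp only [mem_iUnion, mem_Iic] at hm
      obtain ⟨k, hk, τ, hτ, rfl⟩ := hm
      rcases hτ.1.lt_or_eq with h0 | h0
      · right
        exact ⟨m, τ * s m k, _, mul_pos h0 (s_pos m k), rfl, Or.inr ⟨k, hk, τ, hτ, rfl, rfl⟩⟩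
      · left
        rw [← h0]
        exact ⟨1, ⟨zero_le_one, le_rfl⟩, con_zero m k⟩

theorem G_cont (n : ℕ) {z : ℝ × ℝ × ℝ} (hz : z ∈ Z) (hzc : z ≠ bar 1) : ContinuousAt (G n) z := by
  have hR : ContinuousAt (R n) z := (R_cont n).continuousAt
  by_cases h1 : z.2.2 < 1
  · have hev : ∀ᶠ y in 𝓝 z, N n * R n y = G n y := by
      have ho : {y : ℝ × ℝ × ℝ | y.2.2 < 1} ∈ 𝓝 z :=
        (isOpen_lt continuous_snd.snd continuous_const).mem_nhds h1
      filter_upwards [ho] with y hy
      have hy' : y.2.2 < 1 := hy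
      unfold G
      have hR0 : (0 : ℝ) ≤ R n y := le_max_left _ _
      rw [max_eq_left (a := (0 : ℝ)) (by linarith), zero_div, max_eq_left hR0]
    exact (continuousAt_const.mul hR).congr hev
  · push Not at h1
    rcases Z_cases hz with ⟨h, hh, rfl⟩ | ⟨m, r, h, hr, rfl, -⟩
    · exfalso
      apply hzc
      have h2 : 1 ≤ h := h1
      rw [le_antisymm hh.2 h2]
    · by_cases hmn : m = n
      · subst hmn
        have hRz : R m (a m * r, a m * (a m * r), h) = r := by
          unfold R
          rw [ρ_same, max_eq_right hr.le]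
        unfold G
        refine continuousAt_const.mul (hR.max ?_)
        refine ContinuousAt.div ?_ (continuousAt_const.mul hR) ?_
        · exact (continuous_const.max (continuous_snd.snd.sub continuous_const)).continuousAt
        · rw [hRz]
          exact mul_ne_zero (a_pos m).ne' hr.ne'
      · have hlt := ρ_diff hmn hr h
        have hev : ∀ᶠ y in 𝓝 ((a m * r, a m * (a m * r), h) : ℝ × ℝ × ℝ), (0 : ℝ) = G n y := by
          have ho : {y : ℝ × ℝ × ℝ | ρ n y < 0} ∈ 𝓝 (a m * r, a m * (a m * r), h) :=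
            (isOpen_lt (ρ_cont n) continuous_const).mem_nhds hlt
          filter_upwards [ho] with y hy
          have hy' : ρ n y < 0 := hy
          have : R n y = 0 := max_eq_left hy'.le
          unfold G
          rw [this, mul_zero, div_zero, max_self, mul_zero]
        exact continuousAt_const.congr hev

theorem G_zig {n : ℕ} {θ : ℝ} (h : θ ∈ Icc 0 (N n)) : G n (zig n θ) = θ := by
  have hN := N_pos n
  have ha := a_pos n
  have hr : 0 ≤ θ / N n := div_nonneg h.1 hN.le
  have hR : R n (zig n θ) = θ / N n := by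
    unfold R zig
    rw [ρ_same, max_eq_right hr]
  unfold G
  rw [hR, max_eq_left, mul_div_cancel₀ _ hN.ne']
  rcases hr.lt_or_eq with h0 | h0
  · rw [div_le_iff₀ (mul_pos ha h0)]
    apply max_le
    · positivity
    · show (1 + a n * (θ / N n) ^ 2) * w θ - 1 ≤ _
      have h2 : 0 ≤ 1 + a n * (θ / N n) ^ 2 := by positivity
      nlinarith [w_nonneg θ, w_le θ]
  · rw [← h0, mul_zero, div_zero]

theorem G_bar (n : ℕ) (h : ℝ) : G n (bar h) = 0 := by
  have : R n (bar h) = 0 := by unfold R; rw [ρ_bar, max_self]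
  unfold G
  rw [this, mul_zero, div_zero, max_self, mul_zero]

/-- Points of the space at integer position. -/
theorem G_height {n j : ℕ} (hj : 1 ≤ j) {z : ℝ × ℝ × ℝ} (hz : z ∈ Z) (hG : G n z = j) :
    (Even j → z.2.2 = 0) ∧ (Odd j → 1 ≤ z.2.2) := by
  have hj' : (1 : ℝ) ≤ j := by exact_mod_cast hj
  have hN := N_pos n
  have ha := a_pos n
  rcases Z_cases hz with ⟨h, hh, rfl⟩ | ⟨m, r, h, hr, rfl, hcase⟩
  · rw [G_bar] at hG
    linarith
  · by_cases hmn : m = n
    · subst hmn
      rcases hcase with ⟨θ, hθ, rfl, rfl⟩ | ⟨k, hk, τ, hτ, rfl, rfl⟩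
      · have e : G m (zig m θ) = j := hG
        rw [G_zig hθ] at e
        subst e
        constructor
        · rintro ⟨i, rfl⟩
          show _ * w _ = 0
          have : ((i + i : ℕ) : ℝ) = 2 * i := by push_cast; ring
          rw [this, w_even, mul_zero]
        · rintro ⟨i, rfl⟩
          show 1 ≤ _ * w _
          have : ((2 * i + 1 : ℕ) : ℝ) = 2 * i + 1 := by push_cast; ring
          rw [this, w_odd, mul_one]
          have : 0 ≤ a m * ((2 * (i : ℝ) + 1) / N m) ^ 2 := by positivity
          linarith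
      · have hs := s_pos m k
        have hτ0 : 0 < τ := by
          by_contra hcon
          push Not at hcon
          nlinarith
        have hR : R m (a m * (τ * s m k), a m * (a m * (τ * s m k)), 1 + a m * (τ * s m k ^ 2)) =
            τ * s m k := by
          unfold R
          rw [ρ_same, max_eq_right hr.le]
        have e : G m (a m * (τ * s m k), a m * (a m * (τ * s m k)), 1 + a m * (τ * s m k ^ 2)) =
            2 * k + 1 := by
          unfold G
          rw [hR]
          have e1 : max 0 (1 + a m * (τ * s m k ^ 2) - 1) / (a m * (τ * s m k)) = s m k := by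
            rw [max_eq_right (by
              have : 0 ≤ a m * (τ * s m k ^ 2) := by positivity
              linarith)]
            rw [div_eq_iff (by positivity)]
            ring
          have e2 : max (τ * s m k) (s m k) = s m k := by
            apply max_eq_right
            nlinarith [hτ.2]
          have e3 : N m * s m k = 2 * k + 1 := by
            unfold s
            rw [mul_div_cancel₀ _ hN.ne']
          simp only [e1, e2, e3]
        rw [e] at hG
        have hjk : j = 2 * k + 1 := by exact_mod_cast hG.symm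
        constructor
        · intro hev
          exfalso
          rw [hjk] at hev
          exact (Nat.not_even_iff_odd.2 ⟨k, rfl⟩) hev
        · intro _
          show 1 ≤ 1 + a m * (τ * s m k ^ 2)
          have : 0 ≤ a m * (τ * s m k ^ 2) := by positivity
          linarith
    · exfalso
      have hlt := ρ_diff hmn hr h
      have hR : R n (a m * r, a m * (a m * r), h) = 0 := max_eq_left hlt.le
      unfold G at hG
      rw [hR, mul_zero, div_zero, max_self, mul_zero] at hG
      linarith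

/-- The long arc from `c` to `b` in the `n`-th half plane. -/
theorem exists_arc (n : ℕ) : ∃ q : Path c b, Function.Injective q ∧
    (⟨zig n (2 * n), zig_mem ⟨by positivity, by unfold N; linarith⟩⟩ : Z) ∈ range q := by
  have hN := N_pos n
  have ha := a_pos n
  have hs1 : s n n = 1 := by unfold s N; exact div_self (by positivity)
  let F : ℝ → ℝ × ℝ × ℝ := fun t => if t ≤ 1 / 2 then con n n (2 * t) else zig n (N n * (2 - 2 * t))
  have hF : Continuous F := by
    refine Continuous.if_le ((con_cont n n).comp (by fun_prop)) ((zig_cont n).comp (by fun_prop))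
      continuous_id continuous_const ?_
    intro t ht
    have ht' : t = 1 / 2 := ht
    have e1 : (2 : ℝ) * t = 1 := by rw [ht']; norm_num
    have e2 : N n * (2 - 2 * t) = 2 * n + 1 := by rw [ht']; unfold N; ring
    show con n n (2 * t) = zig n (N n * (2 - 2 * t))
    rw [e2, e1, zig_odd]
  have hm1 : ∀ t : unitInterval, (t : ℝ) ≤ 1 / 2 → 2 * (t : ℝ) ∈ Icc (0 : ℝ) 1 := fun t ht =>
    ⟨by linarith [t.2.1], by linarith⟩
  have hm2 : ∀ t : unitInterval, 1 / 2 < (t : ℝ) → N n * (2 - 2 * (t : ℝ)) ∈ Icc 0 (N n) :=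
    fun t ht => ⟨mul_nonneg hN.le (by linarith [t.2.2]), by nlinarith⟩
  have hmem : ∀ t : unitInterval, F t ∈ Z := by
    intro t
    by_cases ht : (t : ℝ) ≤ 1 / 2
    · have : F t = con n n (2 * t) := if_pos ht
      rw [this]
      exact con_mem le_rfl (hm1 t ht)
    · have : F t = zig n (N n * (2 - 2 * t)) := if_neg ht
      rw [this]
      exact zig_mem (hm2 t (not_le.1 ht))
  let q : Path c b :=
    { toFun := fun t => ⟨F t, hmem t⟩
      continuous_toFun := Continuous.subtype_mk (hF.comp continuous_subtype_val) _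
      source' := by
        apply Subtype.ext
        show F ((0 : unitInterval) : ℝ) = bar 1
        have : F ((0 : unitInterval) : ℝ) = con n n (2 * (0 : ℝ)) :=
          if_pos (by show (0 : ℝ) ≤ 1 / 2; norm_num)
        rw [this, mul_zero, con_zero]
      target' := by
        apply Subtype.ext
        show F ((1 : unitInterval) : ℝ) = bar 0
        have : F ((1 : unitInterval) : ℝ) = zig n (N n * (2 - 2 * (1 : ℝ))) :=
          if_neg (by show ¬ (1 : ℝ) ≤ 1 / 2; norm_num)
        rw [this, mul_one, sub_self, mul_zero, zig_zero] }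
  have hq : ∀ t, (q t).1 = F t := fun t => rfl
  refine ⟨q, ?_, ?_⟩
  · have key : ∀ t t' : unitInterval, q t = q t' → t ≤ t' → t = t' := by
      intro t t' h hle
      have hle' : (t : ℝ) ≤ t' := hle
      have h' : F t = F t' := by rw [← hq, ← hq, h]
      by_cases ht : (t : ℝ) ≤ 1 / 2
      · have e1 : F t = con n n (2 * t) := if_pos ht
        by_cases ht' : (t' : ℝ) ≤ 1 / 2
        · have e2 : F t' = con n n (2 * t') := if_pos ht'
          rw [e1, e2] at h'
          have h1 : a n * ((2 * (t : ℝ)) * s n n) = a n * ((2 * (t' : ℝ)) * s n n) :=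
            congrArg Prod.fst h'
          rw [hs1] at h1
          have h2 := mul_left_cancel₀ ha.ne' h1
          exact Subtype.ext (by linarith)
        · push Not at ht'
          exfalso
          have e2 : F t' = zig n (N n * (2 - 2 * t')) := if_neg (not_le.2 ht')
          rw [e1, e2] at h'
          have h1 : a n * ((2 * (t : ℝ)) * s n n) = a n * (N n * (2 - 2 * (t' : ℝ)) / N n) :=
            congrArg Prod.fst h'
          rw [hs1, mul_div_cancel_left₀ _ hN.ne', mul_one] at h1
          have h2 := mul_left_cancel₀ ha.ne' h1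
          have h3 : 1 + a n * ((2 * (t : ℝ)) * s n n ^ 2) =
              (1 + a n * (N n * (2 - 2 * (t' : ℝ)) / N n) ^ 2) * w (N n * (2 - 2 * (t' : ℝ))) :=
            congrArg (fun z => z.2.2) h'
          rw [hs1, mul_div_cancel_left₀ _ hN.ne', ← h2] at h3
          have h4 : 2 * (t : ℝ) < 1 := by rw [h2]; linarith
          have h0 : 0 ≤ 2 * (t : ℝ) := by linarith [t.2.1]
          rcases h0.lt_or_eq with h5 | h5
          · have h6 := w_le (N n * (2 * (t : ℝ)))
            have h7 : (1 + a n * (2 * (t : ℝ)) ^ 2) * w (N n * (2 * (t : ℝ))) ≤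
                1 + a n * (2 * (t : ℝ)) ^ 2 := by
              have : 0 ≤ 1 + a n * (2 * (t : ℝ)) ^ 2 := by positivity
              nlinarith
            have h8 : (2 * (t : ℝ)) ^ 2 < 2 * (t : ℝ) := by nlinarith
            nlinarith
          · rw [← h5] at h3
            have : w (N n * 0) = 0 := by rw [mul_zero]; simp [w]
            rw [this] at h3
            norm_num at h3
      · have e1 : F t = zig n (N n * (2 - 2 * t)) := if_neg ht
        have ht' : ¬ (t' : ℝ) ≤ 1 / 2 := by
          push Not at ht ⊢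
          linarith
        have e2 : F t' = zig n (N n * (2 - 2 * t')) := if_neg ht'
        rw [e1, e2] at h'
        have h1 : a n * (N n * (2 - 2 * (t : ℝ)) / N n) = a n * (N n * (2 - 2 * (t' : ℝ)) / N n) :=
          congrArg Prod.fst h'
        rw [mul_div_cancel_left₀ _ hN.ne', mul_div_cancel_left₀ _ hN.ne'] at h1
        have h2 := mul_left_cancel₀ ha.ne' h1
        exact Subtype.ext (by linarith)
    intro t t' h
    rcases le_total t t' with h1 | h1
    · exact key t t' h h1
    · exact (key t' t h.symm h1).symm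
  · have hn0 : (0 : ℝ) ≤ n := Nat.cast_nonneg n
    have ht : 1 - (n : ℝ) / N n ∈ Icc (0 : ℝ) 1 := by
      constructor
      · rw [sub_nonneg, div_le_one hN]; unfold N; linarith
      · have : 0 ≤ (n : ℝ) / N n := by positivity
        linarith
    refine ⟨⟨1 - (n : ℝ) / N n, ht⟩, ?_⟩
    apply Subtype.ext
    show F (1 - (n : ℝ) / N n) = zig n (2 * n)
    have hgt : 1 / 2 < 1 - (n : ℝ) / N n := by
      have : (n : ℝ) / N n < 1 / 2 := by
        rw [div_lt_iff₀ hN]; unfold N; linarith
      linarith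
    have : F (1 - (n : ℝ) / N n) = zig n (N n * (2 - 2 * (1 - (n : ℝ) / N n))) :=
      if_neg (not_le.2 hgt)
    rw [this]
    congr 1
    have e : N n * (2 - 2 * (1 - (n : ℝ) / N n)) = 2 * (N n * ((n : ℝ) / N n)) := by ring
    rw [e, mul_div_cancel₀ _ hN.ne']

/-- An arc from `c` to `b` through the far point has many large oscillations. -/
theorem many {n M : ℕ} {p : Path c b} (hp : Function.Injective p)
    (hx : (⟨zig n (2 * n), zig_mem ⟨by positivity, by unfold N; linarith⟩⟩ : Z) ∈ range p)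
    {t : Fin (M + 1) → unitInterval} (h0 : t 0 = 0) (h1 : t (Fin.last M) = 1) (_hm : StrictMono t)
    (hd : ∀ i : Fin M, Metric.diam (⇑p '' Set.Icc (t i.castSucc) (t i.succ)) ≤ 1 / 2) :
    2 * n ≤ M := by
  obtain ⟨σ, hσ⟩ := hx
  rcases Nat.eq_zero_or_pos n with hn0 | hn0
  · omega
  have hmem : (2 * (n : ℝ)) ∈ Icc 0 (N n) := ⟨by positivity, by unfold N; linarith⟩
  let φ : unitInterval → ℝ := fun τ => G n (p τ).1
  have hφσ : φ σ = 2 * n := by
    show G n (p σ).1 = _
    rw [hσ]
    exact G_zig hmem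
  have hφ1 : φ 1 = 0 := by
    show G n (p 1).1 = _
    rw [p.target]
    exact G_bar n 0
  have hσ0 : 0 < σ := by
    rcases (unitInterval.nonneg' (t := σ)).lt_or_eq with h | h
    · exact h
    · exfalso
      rw [← h, p.source] at hσ
      have h2 : G n (bar 1) = G n (zig n (2 * n)) := by
        have := congrArg Subtype.val hσ
        exact congrArg (G n) this
      rw [G_bar, G_zig hmem] at h2
      have : (0 : ℝ) < n := by exact_mod_cast hn0
      linarith
  have hcont : ContinuousOn φ (Icc σ 1) := by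
    intro τ hτ
    apply ContinuousAt.continuousWithinAt
    have hne : (p τ).1 ≠ bar 1 := by
      intro h
      have h2 : p τ = p 0 := by rw [p.source]; exact Subtype.ext h
      have h3 := hp h2
      rw [h3] at hτ
      exact absurd hτ.1 (not_le.2 hσ0)
    exact ContinuousAt.comp (f := fun τ => (p τ).1) (G_cont n (p τ).2 hne)
      (continuous_subtype_val.comp p.continuous).continuousAt
  -- last times
  have hT : ∀ j : ℕ, 1 ≤ j → j ≤ 2 * n → ∃ T ∈ Icc σ 1, φ T = j ∧
      ∀ τ ∈ Icc σ 1, (j : ℝ) ≤ φ τ → τ ≤ T := by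
    intro j hj1 hj2
    have hj1' : (1 : ℝ) ≤ j := by exact_mod_cast hj1
    have hj2' : (j : ℝ) ≤ 2 * n := by exact_mod_cast hj2
    have hcl : IsClosed (Icc σ 1 ∩ φ ⁻¹' Ici (j : ℝ)) := hcont.preimage_isClosed_of_isClosed
      isClosed_Icc isClosed_Ici
    have hne : (Icc σ 1 ∩ φ ⁻¹' Ici (j : ℝ)).Nonempty :=
      ⟨σ, ⟨le_rfl, unitInterval.le_one'⟩, by rw [mem_preimage, hφσ]; exact hj2'⟩
    obtain ⟨T, ⟨hT1, hT2⟩, hT3⟩ := hcl.isCompact.exists_isGreatest hne
    have hT2' : (j : ℝ) ≤ φ T := hT2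
    have hivt := intermediate_value_Icc' hT1.2 (hcont.mono (Icc_subset_Icc hT1.1 le_rfl))
    obtain ⟨τ, hτ, hτj⟩ := hivt ⟨by rw [hφ1]; linarith, hT2'⟩
    have hτ' : τ ≤ T := hT3 ⟨⟨hT1.1.trans hτ.1, hτ.2⟩, by rw [mem_preimage, hτj]; exact mem_Ici.2 le_rfl⟩
    have : τ = T := le_antisymm hτ' hτ.1
    subst this
    exact ⟨τ, hT1, hτj, fun τ' h1 h2 => hT3 ⟨h1, h2⟩⟩
  choose T hT1 hT2 hT3 using hT
  have hTanti : ∀ (i j : ℕ) (hi : 1 ≤ i) (hi' : i ≤ 2 * n) (hj : 1 ≤ j) (hj' : j ≤ 2 * n),
      i < j → T j hj hj' < T i hi hi' := by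
    intro i j hi hi' hj hj' hij
    have hij' : (i : ℝ) < j := by exact_mod_cast hij
    refine lt_of_le_of_ne (hT3 i hi hi' _ (hT1 j hj hj') (by rw [hT2]; exact hij'.le)) ?_
    intro h
    have h2 := hT2 j hj hj'
    rw [h, hT2] at h2
    linarith
  -- heights differ
  have hheight : ∀ (j : ℕ) (hj : 1 ≤ j) (hj' : j ≤ 2 * n) (hk : 1 ≤ j + 1) (hk' : j + 1 ≤ 2 * n),
      1 ≤ dist (p (T j hj hj')) (p (T (j + 1) hk hk')) := by
    intro j hj hj' hk hk'
    have g1 := G_height hj (p (T j hj hj')).2 (hT2 j hj hj')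
    have g2 := G_height hk (p (T (j + 1) hk hk')).2 (hT2 (j + 1) hk hk')
    have hdist : |(p (T j hj hj')).1.2.2 - (p (T (j + 1) hk hk')).1.2.2| ≤
        dist (p (T j hj hj')) (p (T (j + 1) hk hk')) := by
      rw [Subtype.dist_eq, Prod.dist_eq, Prod.dist_eq]
      exact (le_max_right _ _).trans (le_max_right _ _)
    refine le_trans ?_ hdist
    rcases Nat.even_or_odd j with he | ho
    · have e1 := g1.1 he
      have e2 := g2.2 (by exact he.add_one)
      rw [e1, zero_sub, abs_neg]
      exact e2.trans (le_abs_self _)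
    · have e1 := g1.2 ho
      have e2 := g2.1 (by exact ho.add_one)
      rw [e2, sub_zero]
      exact e1.trans (le_abs_self _)
  -- index of the interval
  have hI : ∀ τ : unitInterval, τ < 1 → ∃ i : Fin M, t i.castSucc ≤ τ ∧ τ < t i.succ := by
    intro τ hτ
    obtain ⟨i, hi, hmax⟩ := (Set.toFinite {i : Fin (M + 1) | t i ≤ τ}).exists_maximal
      ⟨0, by rw [mem_ofPred_eq, h0]; exact unitInterval.nonneg'⟩
    have hi' : t i ≤ τ := hi
    have hne : i ≠ Fin.last M := by
      rintro rfl
      rw [h1] at hi'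
      exact absurd hi' (not_le.2 hτ)
    obtain ⟨i', rfl⟩ := Fin.exists_castSucc_eq.2 hne
    refine ⟨i', hi', ?_⟩
    by_contra hcon
    push Not at hcon
    have h2 := hmax (y := i'.succ) hcon (Fin.castSucc_lt_succ (i := i')).le
    exact absurd h2 (not_le.2 Fin.castSucc_lt_succ)
  have hTlt : ∀ (j : ℕ) (hj : 1 ≤ j) (hj' : j ≤ 2 * n), T j hj hj' < 1 := by
    intro j hj hj'
    refine lt_of_le_of_ne (hT1 j hj hj').2 ?_
    intro h
    have h2 := hT2 j hj hj'
    rw [h, hφ1] at h2
    have : (1 : ℝ) ≤ j := by exact_mod_cast hj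
    linarith
  choose I hI1 hI2 using fun j : Fin (2 * n) => hI (T (j + 1) (by omega) (by omega))
    (hTlt _ _ _)
  have hinj : Function.Injective I := by
    have key : ∀ i j : Fin (2 * n), i < j → I i ≠ I j := by
      intro i j hij heq
      have hij' : (i : ℕ) < j := hij
      have hi1 : 1 ≤ (i : ℕ) + 1 := by omega
      have hi2 : (i : ℕ) + 1 ≤ 2 * n := by omega
      have hk1 : 1 ≤ (i : ℕ) + 1 + 1 := by omega
      have hk2 : (i : ℕ) + 1 + 1 ≤ 2 * n := by omega
      have hj1 : 1 ≤ (j : ℕ) + 1 := by omega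
      have hj2 : (j : ℕ) + 1 ≤ 2 * n := by omega
      have h3 : T ((i : ℕ) + 1 + 1) hk1 hk2 ≤ T ((i : ℕ) + 1) hi1 hi2 :=
        (hTanti _ _ hi1 hi2 hk1 hk2 (by omega)).le
      have h4 : T ((j : ℕ) + 1) hj1 hj2 ≤ T ((i : ℕ) + 1 + 1) hk1 hk2 := by
        rcases Nat.lt_or_ge ((i : ℕ) + 1) j with h | h
        · exact (hTanti _ _ hk1 hk2 hj1 hj2 (by omega)).le
        · have : (j : ℕ) = (i : ℕ) + 1 := by omega
          simp only [this]
          exact le_rfl
      have hb : Bornology.IsBounded (⇑p '' Set.Icc (t (I i).castSucc) (t (I i).succ)) :=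
        (isCompact_Icc.image p.continuous).isBounded
      have hm1 : T ((i : ℕ) + 1) hi1 hi2 ∈ Set.Icc (t (I i).castSucc) (t (I i).succ) :=
        ⟨hI1 i, (hI2 i).le⟩
      have hm2 : T ((i : ℕ) + 1 + 1) hk1 hk2 ∈ Set.Icc (t (I i).castSucc) (t (I i).succ) := by
        refine ⟨?_, h3.trans (hI2 i).le⟩
        rw [heq]
        exact (hI1 j).trans h4
      have h5 := Metric.dist_le_diam_of_mem hb (mem_image_of_mem p hm1) (mem_image_of_mem p hm2)
      have h6 := hheight ((i : ℕ) + 1) hi1 hi2 hk1 hk2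
      have h7 := hd (I i)
      linarith
    intro i j h
    rcases lt_trichotomy i j with h1 | h1 | h1
    · exact absurd h (key i j h1)
    · exact h1
    · exact absurd h.symm (key j i h1)
  have := Fintype.card_le_of_injective I hinj
  simpa using this

end Q172.UnifPaths
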